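import Mathlib
import Pool.Agent.Helper53.OM.Wts

/-!
# One-sided weights times a Riesz product

The one-sided bound for the cosine sums with the weights `w n` and the phase `π / 4` is kept by
multiplication of the weights with a product `∏ (1 + cos (2 π n t k))`, at the cost of a factor two
for each frequency.
-/

open Filter
open scoped Real

namespace Pool.Agent.Helper22.RZ

noncomputable section

/-- the Riesz product -/
def rz (M : Finset ℕ) (t : ℕ → ℝ) (n : ℕ) : ℝ := ∏ k ∈ M, (1 + Real.cos (2 * π * n * t k))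

lemma rz_nonneg (M : Finset ℕ) (t : ℕ → ℝ) (n : ℕ) : 0 ≤ rz M t n :=
  Finset.prod_nonneg fun k _ => by linarith [Real.neg_one_le_cos (2 * π * n * t k)]

lemma rz_empty (t : ℕ → ℝ) (n : ℕ) : rz ∅ t n = 1 := Finset.prod_empty

lemma rz_insert {M : Finset ℕ} {k : ℕ} (hk : k ∉ M) (t : ℕ → ℝ) (n : ℕ) :
    rz (insert k M) t n = (1 + Real.cos (2 * π * n * t k)) * rz M t n := Finset.prod_insert hk

lemma rz_le (M : Finset ℕ) (t : ℕ → ℝ) (n : ℕ) : rz M t n ≤ 2 ^ M.card := by
  unfold rz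
  rw [← Finset.prod_const]
  refine Finset.prod_le_prod (fun k _ => by linarith [Real.neg_one_le_cos (2 * π * n * t k)])
    fun k _ => by linarith [Real.cos_le_one (2 * π * n * t k)]

/-- the cosine sum with the weights `w n` and the Riesz product -/
def Tw (w : ℕ → ℝ) (T : ℕ) (M : Finset ℕ) (t : ℕ → ℝ) (θ : ℝ) : ℝ :=
  ∑ n ∈ Finset.Icc 1 T, w n * rz M t n * Real.cos (2 * π * n * θ + π / 4)

/-- the total weight -/
def Ww (w : ℕ → ℝ) (T : ℕ) (M : Finset ℕ) (t : ℕ → ℝ) : ℝ :=
  ∑ n ∈ Finset.Icc 1 T, w n * rz M t n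

/-- the one-sided bound -/
lemma Tw_lower {w : ℕ → ℝ} {T : ℕ} {A : ℝ}
    (h : ∀ θ : ℝ, -A ≤ ∑ n ∈ Finset.Icc 1 T, w n * Real.cos (2 * π * n * θ + π / 4))
    (t : ℕ → ℝ) (M : Finset ℕ) (θ : ℝ) : -(A * 2 ^ M.card) ≤ Tw w T M t θ := by
  classical
  induction M using Finset.induction_on generalizing θ with
  | empty => simpa [Tw, rz_empty] using h θ
  | insert k M hk ih =>
    have h1 : Tw w T (insert k M) t θ = Tw w T M t θ + 1 / 2 * Tw w T M t (θ + t k)
        + 1 / 2 * Tw w T M t (θ - t k) := by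
      unfold Tw
      rw [Finset.mul_sum, Finset.mul_sum, ← Finset.sum_add_distrib, ← Finset.sum_add_distrib]
      refine Finset.sum_congr rfl fun n _ => ?_
      rw [rz_insert hk]
      have e1 : 2 * π * n * (θ + t k) + π / 4 = (2 * π * n * θ + π / 4) + 2 * π * n * t k := by ring
      have e2 : 2 * π * n * (θ - t k) + π / 4 = (2 * π * n * θ + π / 4) - 2 * π * n * t k := by ring
      rw [e1, e2, Real.cos_add (2 * π * n * θ + π / 4), Real.cos_sub (2 * π * n * θ + π / 4)]
      ring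
    rw [h1, Finset.card_insert_of_notMem hk, pow_succ]
    have := ih θ
    have := ih (θ + t k)
    have := ih (θ - t k)
    linarith

lemma cos_split (x : ℝ) :
    Real.cos x = (√2 / 2) * (Real.cos (x + π / 4) + Real.cos (-x + π / 4)) := by
  have h1 : Real.cos (-x + π / 4) = Real.cos (x - π / 4) := by
    rw [← Real.cos_neg]; congr 1; ring
  rw [h1, Real.cos_add, Real.cos_sub, Real.cos_pi_div_four, Real.sin_pi_div_four]
  have h2 : √2 * √2 = 2 := Real.mul_self_sqrt (by norm_num)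
  have : √2 / 2 * (Real.cos x * (√2 / 2) - Real.sin x * (√2 / 2) +
      (Real.cos x * (√2 / 2) + Real.sin x * (√2 / 2))) = √2 * √2 / 2 * Real.cos x := by ring
  rw [this, h2]
  ring

lemma Ww_lower {w : ℕ → ℝ} {T : ℕ} {A : ℝ} (hA : 0 ≤ A)
    (h : ∀ θ : ℝ, -A ≤ ∑ n ∈ Finset.Icc 1 T, w n * Real.cos (2 * π * n * θ + π / 4))
    (t : ℕ → ℝ) (M : Finset ℕ) :
    ∑ n ∈ Finset.Icc 1 T, w n - 3 / 2 * A * 2 ^ M.card ≤ Ww w T M t := by
  classical
  induction M using Finset.induction_on with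
  | empty =>
    have : Ww w T ∅ t = ∑ n ∈ Finset.Icc 1 T, w n := by simp [Ww, rz_empty]
    rw [this, Finset.card_empty, pow_zero]
    linarith
  | insert k M hk ih =>
    have h1 : Ww w T (insert k M) t = Ww w T M t + (√2 / 2) * (Tw w T M t (t k)
        + Tw w T M t (-(t k))) := by
      unfold Tw Ww
      rw [← Finset.sum_add_distrib, Finset.mul_sum, ← Finset.sum_add_distrib]
      refine Finset.sum_congr rfl fun n _ => ?_
      rw [rz_insert hk, cos_split (2 * π * n * t k)]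
      have e2 : 2 * π * n * (-t k) + π / 4 = -(2 * π * n * t k) + π / 4 := by ring
      rw [e2]
      ring
    rw [h1, Finset.card_insert_of_notMem hk, pow_succ]
    have h2 := Tw_lower h t M (t k)
    have h3 := Tw_lower h t M (-(t k))
    have h4 : √2 ≤ 3 / 2 := by rw [Real.sqrt_le_left (by norm_num)]; norm_num
    have h5 : 0 ≤ √2 := Real.sqrt_nonneg 2
    have h6 : 0 ≤ A * 2 ^ M.card := by positivity
    have h7 : -(3 / 2 * (A * 2 ^ M.card)) ≤ (√2 / 2) * (Tw w T M t (t k) + Tw w T M t (-(t k))) := by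
      have : (√2 / 2) * (-(2 * (A * 2 ^ M.card))) ≤
          (√2 / 2) * (Tw w T M t (t k) + Tw w T M t (-(t k))) :=
        mul_le_mul_of_nonneg_left (by linarith) (by positivity)
      refine le_trans ?_ this
      nlinarith
    linarith

/-- in phase at the frequencies of the Riesz product -/
lemma Tw_near {w : ℕ → ℝ} {T : ℕ} {A : ℝ} (hA : 0 ≤ A) (hw : ∀ n, 0 ≤ w n)
    (h : ∀ θ : ℝ, -A ≤ ∑ n ∈ Finset.Icc 1 T, w n * Real.cos (2 * π * n * θ + π / 4))
    (t : ℕ → ℝ) {M : Finset ℕ} {k : ℕ} (hk : k ∈ M) :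
    1 / 5 * Ww w T M t - A * 2 ^ M.card ≤ Tw w T M t (t k) := by
  classical
  obtain ⟨M', hM', rfl⟩ : ∃ M', k ∉ M' ∧ insert k M' = M :=
    ⟨M.erase k, Finset.notMem_erase k M, Finset.insert_erase hk⟩
  have hs0 : 1.4 ≤ √2 := by
    apply Real.le_sqrt_of_sq_le; norm_num
  have hs1 : √2 ≤ 3 / 2 := by rw [Real.sqrt_le_left (by norm_num)]; norm_num
  have hs2 : √2 * √2 = 2 := Real.mul_self_sqrt (by norm_num)
  have h1 : (1 - √2 / 10) * Tw w T M' t (t k) + 1 / 2 * Tw w T M' t (2 * t k)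
      ≤ Tw w T (insert k M') t (t k) - 1 / 5 * Ww w T (insert k M') t := by
    unfold Tw Ww
    rw [Finset.mul_sum, Finset.mul_sum, Finset.mul_sum, ← Finset.sum_add_distrib,
      ← Finset.sum_sub_distrib]
    refine Finset.sum_le_sum fun n _ => ?_
    rw [rz_insert hM']
    set φ : ℝ := 2 * π * n * t k with hφ
    have e2 : 2 * π * n * (2 * t k) + π / 4 = (φ + π / 4) + φ := by rw [hφ]; ring
    rw [e2]
    have e3 : Real.cos (φ + π / 4 + φ) = 2 * Real.cos φ * Real.cos (φ + π / 4) - √2 / 2 := by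
      have e4 : Real.cos (φ + π / 4) = √2 / 2 * (Real.cos φ - Real.sin φ) := by
        rw [Real.cos_add, Real.cos_pi_div_four, Real.sin_pi_div_four]; ring
      have e5 : Real.sin (φ + π / 4) = √2 / 2 * (Real.sin φ + Real.cos φ) := by
        rw [Real.sin_add, Real.cos_pi_div_four, Real.sin_pi_div_four]; ring
      rw [Real.cos_add (φ + π / 4) φ, e4, e5]
      have := Real.sin_sq_add_cos_sq φ
      linear_combination (-√2 / 2) * this
    rw [e3]
    have e6 := cos_split φ
    have e7 := Real.cos_le_one (-φ + π / 4)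
    set a : ℝ := Real.cos φ with ha
    set b : ℝ := Real.cos (φ + π / 4) with hb
    set c : ℝ := Real.cos (-φ + π / 4) with hc
    have hg := mul_nonneg (hw n) (rz_nonneg M' t n)
    have key : (1 - √2 / 10) * b + 1 / 2 * (2 * a * b - √2 / 2) ≤
        (1 + a) * b - 1 / 5 * (1 + a) := by
      have h8 : √2 / 10 * b = a / 5 - √2 / 10 * c := by rw [e6]; ring
      have h9 : √2 / 10 * c ≤ √2 / 10 * 1 := mul_le_mul_of_nonneg_left e7 (by positivity)
      nlinarith
    have := mul_le_mul_of_nonneg_left key hg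
    calc (1 - √2 / 10) * (w n * rz M' t n * b) + 1 / 2 * (w n * rz M' t n * (2 * a * b - √2 / 2))
        = w n * rz M' t n * ((1 - √2 / 10) * b + 1 / 2 * (2 * a * b - √2 / 2)) := by ring
      _ ≤ w n * rz M' t n * ((1 + a) * b - 1 / 5 * (1 + a)) := this
      _ = _ := by ring
  have h2 := Tw_lower h t M' (t k)
  have h3 := Tw_lower h t M' (2 * t k)
  rw [Finset.card_insert_of_notMem hM', pow_succ]
  have h6 : 0 ≤ A * 2 ^ M'.card := by positivity
  have h7 : (1 - √2 / 10) * (-(A * 2 ^ M'.card)) ≤ (1 - √2 / 10) * Tw w T M' t (t k) :=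
    mul_le_mul_of_nonneg_left h2 (by linarith)
  nlinarith

end

end Pool.Agent.Helper22.RZ
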