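import Mathlib
import Pool.Agent.Helper22.RZ.Riesz
import Pool.Agent.Helper53.OM.Ana

/-!
# The core inequality with a Riesz product
-/

open Filter MeasureTheory Set
open scoped Real Topology

namespace Pool.Agent.Helper22.RZ

open Pool.Agent.Helper22.GC Pool.Agent.Helper53.OM

noncomputable section

/-- a cosine series with the phase of the circle problem -/
def Gs (b : ℕ → ℝ) (R : ℝ) : ℝ := ∑' K : ℕ, b K * (1 / π * Real.cos (2 * π * (R * √K) - 3 * π / 4))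

lemma sum_Gs {b : ℕ → ℝ} (hb : ∀ K, 0 ≤ b K) (hs : Summable b) (u : ℕ → ℝ) (T : ℕ) (x : ℝ) :
    ∑ l ∈ Finset.Icc 1 T, u l * Gs b (l * x)
      = -(1 / π * ∑' K : ℕ, b K * ∑ l ∈ Finset.Icc 1 T, u l * Real.cos (2 * π * l * (√K * x) + π / 4)) := by
  have hs' : ∀ t : ℝ, Summable (fun K : ℕ => b K * (1 / π * Real.cos (2 * π * (t * √K) - 3 * π / 4))) := by
    intro t
    refine Summable.of_norm_bounded hs fun K => ?_
    rw [norm_mul, Real.norm_of_nonneg (hb K), norm_mul, Real.norm_of_nonneg (by positivity)]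
    refine mul_le_of_le_one_right (hb K) ?_
    have h1 : 1 / π ≤ 1 := by
      rw [div_le_one Real.pi_pos]; linarith [Real.pi_gt_three]
    have h2 : ‖Real.cos (2 * π * (t * √K) - 3 * π / 4)‖ ≤ 1 := Real.abs_cos_le_one _
    calc 1 / π * ‖Real.cos (2 * π * (t * √K) - 3 * π / 4)‖ ≤ 1 * 1 :=
          mul_le_mul h1 h2 (norm_nonneg _) zero_le_one
      _ = 1 := one_mul 1
  have h1 : ∀ l : ℕ, u l * Gs b (l * x)
      = ∑' K : ℕ, u l * (b K * (1 / π * Real.cos (2 * π * ((l * x) * √K) - 3 * π / 4))) := by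
    intro l
    rw [Gs, tsum_mul_left]
  simp_rw [h1]
  have h1' := Summable.tsum_finsetSum (s := Finset.Icc 1 T)
    (f := fun (l K : ℕ) => u l *
      (b K * (1 / π * Real.cos (2 * π * ((l * x) * √K) - 3 * π / 4))))
    (fun l _ => (hs' (l * x)).mul_left _)
  rw [← h1', ← tsum_mul_left, ← tsum_neg]
  refine tsum_congr fun K => ?_
  rw [Finset.mul_sum, Finset.mul_sum, ← Finset.sum_neg_distrib]
  refine Finset.sum_congr rfl fun l _ => ?_
  have h2 : Real.cos (2 * π * ((l * x) * √K) - 3 * π / 4) = -Real.cos (2 * π * l * (√K * x) + π / 4) := by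
    have : 2 * π * ((l * x) * √K) - 3 * π / 4 = (2 * π * l * (√K * x) + π / 4) - π := by ring
    rw [this, Real.cos_sub_pi]
  rw [h2]
  ring

/-- the core inequality, for the weighted sums -/
lemma core_sum {b : ℕ → ℝ} (hb : ∀ K, 0 ≤ b K) (hs : Summable b) {w : ℕ → ℝ} (hw : ∀ n, 0 ≤ w n)
    {T : ℕ} {A W B : ℝ} (hA : 0 < A)
    (h : ∀ θ : ℝ, -A ≤ ∑ n ∈ Finset.Icc 1 T, w n * Real.cos (2 * π * n * θ + π / 4))
    (hW : W ≤ ∑ n ∈ Finset.Icc 1 T, w n) (hB : ∑' K, b K ≤ B)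
    {M : Finset ℕ} (hM : 3 * A * 2 ^ M.card ≤ W) (x : ℝ) :
    W / 2 ≤ Ww w T M (fun K => √(K : ℝ) * x) ∧
    ∑ l ∈ Finset.Icc 1 T, (w l * rz M (fun K => √(K : ℝ) * x) l) * Gs b (l * x) ≤
      (A * 2 ^ M.card * B / W - 1 / 20 * ∑ K ∈ M, b K) * Ww w T M (fun K => √(K : ℝ) * x) := by
  classical
  have hπ := Real.pi_pos
  have hP : (0 : ℝ) < 2 ^ M.card := by positivity
  have hAP : 0 < A * 2 ^ M.card := by positivity
  have hW0 : 0 < W := by linarith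
  have hB0 : 0 ≤ B := (tsum_nonneg hb).trans hB
  set t : ℕ → ℝ := fun K => √(K : ℝ) * x with ht
  have hWM := Ww_lower hA.le h t M
  set V : ℝ := Ww w T M t with hV
  have hVW : W / 2 ≤ V := by linarith
  have hV0 : 0 < V := by linarith
  refine ⟨hVW, ?_⟩
  rw [sum_Gs hb hs]
  have hTle : ∀ θ : ℝ, |Tw w T M t θ| ≤ V := by
    intro θ
    rw [hV]
    unfold Tw Ww
    refine (Finset.abs_sum_le_sum_abs _ _).trans (Finset.sum_le_sum fun l _ => ?_)
    have hg := mul_nonneg (hw l) (rz_nonneg M t l)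
    rw [abs_mul, abs_of_nonneg hg]
    exact mul_le_of_le_one_right hg (Real.abs_cos_le_one _)
  have hsT : Summable (fun K : ℕ => b K * Tw w T M t (√K * x)) := by
    refine Summable.of_norm_bounded (hs.mul_right V) fun K => ?_
    rw [norm_mul, Real.norm_of_nonneg (hb K)]
    exact mul_le_mul_of_nonneg_left (hTle _) (hb K)
  have h2 : ∀ K : ℕ, (if K ∈ M then b K * (1 / 5 * V) else 0) - (A * 2 ^ M.card) * b K
      ≤ b K * Tw w T M t (√K * x) := by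
    intro K
    have hbK := hb K
    split_ifs with hK
    · have h3 := mul_le_mul_of_nonneg_left (Tw_near hA.le hw h t hK) hbK
      have e : t K = √(K : ℝ) * x := rfl
      rw [e] at h3
      linarith
    · have h3 := mul_le_mul_of_nonneg_left (Tw_lower h t M (√K * x)) hbK
      linarith
  have hsI : Summable (fun K : ℕ => if K ∈ M then b K * (1 / 5 * V) else 0) :=
    summable_of_ne_finset_zero (s := M) fun K hK => if_neg hK
  have h3 := (hsI.sub (hs.mul_left (A * 2 ^ M.card))).tsum_le_tsum h2 hsT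
  rw [hsI.tsum_sub (hs.mul_left (A * 2 ^ M.card)), tsum_mul_left,
    tsum_eq_sum (s := M) (fun K hK => if_neg hK)] at h3
  have h4 : ∑ K ∈ M, (if K ∈ M then b K * (1 / 5 * V) else 0) = (∑ K ∈ M, b K) * (1 / 5 * V) := by
    rw [Finset.sum_mul]
    exact Finset.sum_congr rfl fun K hK => if_pos hK
  rw [h4] at h3
  set S : ℝ := ∑ K ∈ M, b K with hS
  have hS0 : 0 ≤ S := Finset.sum_nonneg fun K _ => hb K
  have e0 : ∑' K : ℕ, b K * ∑ l ∈ Finset.Icc 1 T, w l * rz M t l * Real.cos (2 * π * l * (√K * x) + π / 4)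
      = ∑' K : ℕ, b K * Tw w T M t (√K * x) := rfl
  rw [e0]
  set Tt : ℝ := ∑' K : ℕ, b K * Tw w T M t (√K * x) with hTt
  have h6 : S * (1 / 5 * V) - (A * 2 ^ M.card) * B ≤ Tt := by
    have := mul_le_mul_of_nonneg_left hB hAP.le
    linarith
  have h8 : 1 / 4 ≤ 1 / π := one_div_le_one_div_of_le hπ Real.pi_lt_four.le
  have h9 : 1 / π ≤ 1 / 2 := one_div_le_one_div_of_le (by norm_num) (by linarith [Real.pi_gt_three])
  have h7 : -(1 / π * Tt) ≤ 1 / π * ((A * 2 ^ M.card) * B) - 1 / π * (S * (1 / 5 * V)) := by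
    have := mul_le_mul_of_nonneg_left h6 (by positivity : 0 ≤ 1 / π)
    linarith
  have e1 : 1 / π * ((A * 2 ^ M.card) * B) ≤ 1 / 2 * ((A * 2 ^ M.card) * B) :=
    mul_le_mul_of_nonneg_right h9 (by positivity)
  have e2 : 1 / 4 * (S * (1 / 5 * V)) ≤ 1 / π * (S * (1 / 5 * V)) :=
    mul_le_mul_of_nonneg_right h8 (by positivity)
  have h10 : 1 / 2 * ((A * 2 ^ M.card) * B) ≤ (A * 2 ^ M.card * B / W) * V := by
    have e3 : (A * 2 ^ M.card * B / W) * (W / 2) ≤ (A * 2 ^ M.card * B / W) * V :=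
      mul_le_mul_of_nonneg_left hVW (by positivity)
    have e4 : (A * 2 ^ M.card * B / W) * (W / 2) = 1 / 2 * ((A * 2 ^ M.card) * B) := by
      field_simp
    linarith
  have : (A * 2 ^ M.card * B / W - 1 / 20 * S) * V
      = (A * 2 ^ M.card * B / W) * V - 1 / 4 * (S * (1 / 5 * V)) := by ring
  rw [this]
  linarith

/-- the core inequality -/
lemma core_gen {b : ℕ → ℝ} (hb : ∀ K, 0 ≤ b K) (hs : Summable b) {w : ℕ → ℝ} (hw : ∀ n, 0 ≤ w n)
    {T : ℕ} {A W B : ℝ} (hA : 0 < A)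
    (h : ∀ θ : ℝ, -A ≤ ∑ n ∈ Finset.Icc 1 T, w n * Real.cos (2 * π * n * θ + π / 4))
    (hW : W ≤ ∑ n ∈ Finset.Icc 1 T, w n) (hB : ∑' K, b K ≤ B)
    {M : Finset ℕ} (hM : 3 * A * 2 ^ M.card ≤ W) {x m : ℝ}
    (hm : ∀ l ∈ Finset.Icc 1 T, m ≤ Gs b (l * x)) :
    m ≤ A * 2 ^ M.card * B / W - 1 / 20 * ∑ K ∈ M, b K := by
  obtain ⟨h1, h2⟩ := core_sum hb hs hw hA h hW hB hM x
  have hP : (0 : ℝ) < 2 ^ M.card := by positivity
  have hW0 : 0 < W := by nlinarith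
  have hV0 : 0 < Ww w T M (fun K => √(K : ℝ) * x) := by linarith
  have h3 : m * Ww w T M (fun K => √(K : ℝ) * x) ≤
      ∑ l ∈ Finset.Icc 1 T, (w l * rz M (fun K => √(K : ℝ) * x) l) * Gs b (l * x) := by
    rw [Ww, Finset.mul_sum]
    refine Finset.sum_le_sum fun l hl => ?_
    rw [mul_comm]
    exact mul_le_mul_of_nonneg_left (hm l hl) (mul_nonneg (hw l) (rz_nonneg M _ l))
  exact le_of_mul_le_mul_right (h3.trans h2) hV0

lemma Av_eq_Gs {δ : ℝ} (hδ : 0 < δ) {N : ℕ} (hN : 1 ≤ N) (t : ℝ) :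
    Av (1 / (4 * √N)) (gI δ) t = Gs (bK δ N) t := by
  have hN0 : (0 : ℝ) < N := by exact_mod_cast hN
  have hh : 0 < 1 / (4 * √(N : ℝ)) := by have := Real.sqrt_pos.mpr hN0; positivity
  rw [Av_gI hδ hh]
  rfl

/-- the analytic part -/
theorem analytic_riesz : ∃ c C : ℝ, 0 < c ∧ 0 < C ∧ ∀ (N L : ℕ) (M : Finset ℕ) (X : ℝ), 1 ≤ N →
    2 ≤ L → M ⊆ Finset.Icc 1 N → 2 ≤ X → 96 * 2 ^ M.card ≤ √(L : ℝ) →
    ∃ R : ℝ, X ≤ R ∧ R ≤ 4 * X * (L : ℝ) ^ 2 ∧
      Pe R ≤ √R * (C + C * 2 ^ M.card * (N : ℝ) ^ (1 / 4 : ℝ) / √L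
        - c * ∑ K ∈ M, (gr K : ℝ) * (K : ℝ) ^ (-(3 / 4) : ℝ)) := by
  obtain ⟨C1, hC1, hlow⟩ := gI_lower
  refine ⟨1 / 200, 2 * C1 + 9000, by norm_num, by linarith, ?_⟩
  intro N L M X hN hL hM hX hML
  have hN0 : (0 : ℝ) < N := by exact_mod_cast hN
  have hN1 : (1 : ℝ) ≤ N := by exact_mod_cast hN
  have hsN : 1 ≤ √(N : ℝ) := by rw [Real.one_le_sqrt]; exact hN1
  have hLr : (2 : ℝ) ≤ L := by exact_mod_cast hL
  have hsL : 0 < √(L : ℝ) := Real.sqrt_pos.mpr (by linarith)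
  have hπ := Real.pi_pos
  set S : ℝ := ∑ K ∈ M, (gr K : ℝ) * (K : ℝ) ^ (-(3 / 4) : ℝ) with hS
  set Q : ℝ := (N : ℝ) ^ (1 / 4 : ℝ) with hQ
  have hQ0 : 0 ≤ Q := Real.rpow_nonneg hN0.le _
  have hS0 : 0 ≤ S := Finset.sum_nonneg fun K _ =>
    mul_nonneg (Nat.cast_nonneg _) (Real.rpow_nonneg (Nat.cast_nonneg K) _)
  by_contra hcon
  push Not at hcon
  set Y : ℝ := 4 * X * (L : ℝ) ^ 2 with hY
  set β : ℝ := (2 * C1 + 9000) + (2 * C1 + 9000) * 2 ^ M.card * Q / √L - 1 / 200 * S with hβ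
  have hL2 : (1 : ℝ) ≤ (L : ℝ) ^ 2 := by nlinarith
  have hYpos : 0 < Y := by positivity
  obtain ⟨δ, hδ⟩ : ∃ δ : ℝ, δ = 1 / (Y + 13 * √N) := ⟨_, rfl⟩
  have hδ0 : 0 < δ := by rw [hδ]; positivity
  have hδ2 : δ ≤ 1 / 2 := by
    rw [hδ]
    apply one_div_le_one_div_of_le (by norm_num)
    nlinarith
  have hδY : δ * Y ≤ 1 := by
    rw [hδ, one_div_mul_eq_div, div_le_one (by positivity)]
    nlinarith
  have hδN : 4 * π * δ * √N ≤ 1 := by
    have h1 : 4 * π * δ * √N = 4 * π * √N / (Y + 13 * √N) := by rw [hδ]; ring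
    rw [h1, div_le_one (by positivity)]
    have := Real.pi_lt_d2
    nlinarith
  have h1 := hlow δ β X Y hδ0 hδ2 hX hδY (fun R hR1 hR2 => by
    have := hcon R hR1 hR2
    rw [mul_comm]
    exact this.le)
  have h2 : ∀ l ∈ Finset.Icc 1 (L ^ 2), min β (β / 2) - C1 ≤ Gs (bK δ N) (l * (2 * X)) := by
    intro l hl
    rw [Finset.mem_Icc] at hl
    have hl1 : (1 : ℝ) ≤ l := by exact_mod_cast hl.1
    have hl2 : (l : ℝ) ≤ (L : ℝ) ^ 2 := by exact_mod_cast hl.2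
    have hh : 1 / (4 * √(N : ℝ)) ≤ 1 / 4 := by
      apply one_div_le_one_div_of_le (by norm_num)
      linarith
    rw [← Av_eq_Gs hδ0 hN]
    refine le_Av (by positivity) (continuous_gI hδ0) fun y hy1 hy2 => h1 y ?_ ?_
    · have : 2 * X ≤ l * (2 * X) := by nlinarith
      linarith
    · have h3 : l * (2 * X) ≤ (L : ℝ) ^ 2 * (2 * X) :=
        mul_le_mul_of_nonneg_right hl2 (by linarith)
      have h4 : 1 ≤ (L : ℝ) ^ 2 * (2 * X) := by nlinarith
      have h5 : Y = 2 * ((L : ℝ) ^ 2 * (2 * X)) := by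
        rw [hY]; ring
      rw [h5]
      linarith
  obtain ⟨h0, _⟩ := rL hL
  obtain ⟨hbs, hbt⟩ := summable_bK δ hN
  have h3 := core_gen (bK_nonneg δ N) hbs (w := wr (1 - 1 / L)) (wr_nonneg h0) (T := L ^ 2)
    (A := 2) (W := √L / 16) (B := 90 * Q) (by norm_num) (fun θ => TL_lower hL θ)
    (WL_lower hL) hbt (M := M) (by linarith) h2
  have h5 : 1 / 5 * S ≤ ∑ K ∈ M, bK δ N K := by
    rw [hS, Finset.mul_sum]
    refine Finset.sum_le_sum fun K hK => ?_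
    have := Finset.mem_Icc.mp (hM hK)
    exact bK_lower hδ0 this.1 this.2 hδN
  have e1 : 2 * 2 ^ M.card * (90 * Q) / (√L / 16) = 2880 * (2 ^ M.card * Q / √L) := by
    field_simp
    ring
  have e2 : (2 * C1 + 9000) * 2 ^ M.card * Q / √L = (2 * C1 + 9000) * (2 ^ M.card * Q / √L) := by ring
  have h6 : 0 ≤ C1 * (2 ^ M.card * Q / √L) := by positivity
  have h7 : 0 ≤ 2 ^ M.card * Q / √(L : ℝ) := by positivity
  rw [e1] at h3
  rw [e2] at hβ
  rcases min_choice β (β / 2) with h4 | h4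
  · rw [h4] at h3
    linarith
  · rw [h4] at h3
    linarith

end

end Pool.Agent.Helper22.RZ
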