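import Mathlib
import Pool.Agent.Helper53.OM.Count
import Pool.Agent.Helper53.OM.Stir

/-!
# The integers with `r(K) K^(-3/4)` above a threshold

The first part repeats helper53's construction of many integers with exactly `k` prime factors, all
congruent to one modulo four, and records the number of prime factors.
-/

open Filter
open scoped Real

namespace Pool.Agent.Helper22.RZ

open Pool.Agent.Helper22.GC Pool.Agent.Helper53.OM Pool.Agent.Helper53.OM.Cnt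

noncomputable section

lemma build' {N k : ℕ} {z c : ℝ} (hc : 0 ≤ c) (hN : 2 ≤ N)
    (hz : z < √N / 2)
    (hQ : ∀ y : ℝ, √N ≤ y → c * y / Real.log y ≤ (Q1 y).card) :
    ∃ M : Finset ℕ, M ⊆ Finset.Icc 1 N ∧
      (∀ m ∈ M, 2 ^ (k + 1) ≤ gr m ∧ m.primeFactors.card = k + 1) ∧
      c * (N / Real.log N) * ∑ S ∈ NN (P1 z) k (√N), 1 / ((∏ p ∈ S, p : ℕ) : ℝ) ≤ M.card := by
  classical
  have hN0 : (0 : ℝ) < N := by positivity
  have hN1 : (1 : ℝ) < N := by exact_mod_cast hN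
  have hsq : √(N : ℝ) * √N = N := Real.mul_self_sqrt hN0.le
  have hsq1 : 1 < √(N : ℝ) := by
    rw [Real.lt_sqrt (by norm_num)]
    linarith
  set T : Finset (Σ _ : Finset ℕ, ℕ) :=
    (NN (P1 z) k (√N)).sigma (fun S => Q1 (N / ((∏ p ∈ S, p : ℕ) : ℝ))) with hT
  -- properties of the elements
  have hprop : ∀ S ∈ NN (P1 z) k (√N), (∀ q ∈ S, q.Prime ∧ q % 4 = 1 ∧ (q : ℝ) ≤ z) ∧
      S.card = k ∧ 0 < ∏ p ∈ S, p ∧ √(N : ℝ) ≤ N / ((∏ p ∈ S, p : ℕ) : ℝ) ∧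
      (N : ℝ) / ((∏ p ∈ S, p : ℕ) : ℝ) ≤ N := by
    intro S hS
    unfold NN at hS
    rw [Finset.mem_filter, Finset.mem_powersetCard] at hS
    obtain ⟨⟨hS1, hS2⟩, hS3⟩ := hS
    have ha : ∀ q ∈ S, q.Prime ∧ q % 4 = 1 ∧ (q : ℝ) ≤ z := by
      intro q hq
      obtain ⟨⟨hq1, hq2⟩, hq3, hq4⟩ := mem_P1.1 (hS1 hq)
      refine ⟨hq3, hq4, ?_⟩
      have hz0 : 0 ≤ z := by
        by_contra hneg
        rw [Nat.floor_of_nonpos (by linarith)] at hq2
        omega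
      exact (Nat.le_floor_iff hz0).1 hq2
    have hb : 0 < ∏ p ∈ S, p := Finset.prod_pos fun q hq => (ha q hq).1.pos
    have hb' : (0 : ℝ) < ((∏ p ∈ S, p : ℕ) : ℝ) := by exact_mod_cast hb
    refine ⟨ha, hS2, hb, ?_, ?_⟩
    · rw [le_div_iff₀ hb']
      calc √(N : ℝ) * ((∏ p ∈ S, p : ℕ) : ℝ) ≤ √N * √N :=
            mul_le_mul_of_nonneg_left hS3 (Real.sqrt_nonneg _)
        _ = N := hsq
    · rw [div_le_iff₀ hb']
      have : (1 : ℝ) ≤ ((∏ p ∈ S, p : ℕ) : ℝ) := by exact_mod_cast hb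
      nlinarith
  have hQprop : ∀ y : ℝ, √(N : ℝ) ≤ y → ∀ p ∈ Q1 y, p.Prime ∧ p % 4 = 1 ∧ (p : ℝ) ≤ y ∧
      z < p := by
    intro y hy p hp
    unfold Q1 at hp
    rw [Finset.mem_filter] at hp
    obtain ⟨hp1, hp2⟩ := hp
    obtain ⟨⟨hq1, hq2⟩, hq3, hq4⟩ := mem_P1.1 hp1
    refine ⟨hq3, hq4, (Nat.le_floor_iff (by linarith)).1 hq2, ?_⟩
    linarith
  -- injectivity
  have hinj : Set.InjOn (fun a : (Σ _ : Finset ℕ, ℕ) => (∏ p ∈ a.1, p) * a.2) T := by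
    rintro ⟨S, p⟩ hSp ⟨S', p'⟩ hSp' heq
    rw [Finset.mem_coe, hT, Finset.mem_sigma] at hSp hSp'
    obtain ⟨hS, hp⟩ := hSp
    obtain ⟨hS', hp'⟩ := hSp'
    simp only at hS hp hS' hp' heq
    obtain ⟨a1, a2, a3, a4, a5⟩ := hprop S hS
    obtain ⟨b1, b2, b3, b4, b5⟩ := hprop S' hS'
    obtain ⟨c1, c2, c3, c4⟩ := hQprop _ a4 p hp
    obtain ⟨d1, d2, d3, d4⟩ := hQprop _ b4 p' hp'
    have hpp : p = p' := by
      by_contra hne
      have h1 : p ∣ (∏ q ∈ S', q) * p' := ⟨∏ q ∈ S, q, by rw [← heq]; ring⟩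
      rcases (Nat.Prime.dvd_mul c1).1 h1 with h2 | h2
      · by_cases h3 : p ∈ S'
        · have := (b1 p h3).2.2
          linarith
        · exact not_dvd_prod (fun q hq => (b1 q hq).1) c1 h3 h2
      · exact hne ((Nat.prime_dvd_prime_iff_eq c1 d1).1 h2)
    subst hpp
    have hprod : ∏ q ∈ S, q = ∏ q ∈ S', q := Nat.eq_of_mul_eq_mul_right c1.pos heq
    have hSS : S = S' := by
      have e1 := Nat.primeFactors_prod (fun q hq => (a1 q hq).1 : ∀ q ∈ S, q.Prime)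
      have e2 := Nat.primeFactors_prod (fun q hq => (b1 q hq).1 : ∀ q ∈ S', q.Prime)
      rw [← e1, ← e2, hprod]
    subst hSS
    rfl
  refine ⟨T.image (fun a => (∏ p ∈ a.1, p) * a.2), ?_, ?_, ?_⟩
  · intro m hm
    rw [Finset.mem_image] at hm
    obtain ⟨⟨S, p⟩, hSp, rfl⟩ := hm
    rw [hT, Finset.mem_sigma] at hSp
    obtain ⟨hS, hp⟩ := hSp
    simp only at hS hp
    obtain ⟨a1, a2, a3, a4, a5⟩ := hprop S hS
    obtain ⟨c1, c2, c3, c4⟩ := hQprop _ a4 p hp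
    rw [Finset.mem_Icc]
    simp only
    refine ⟨Nat.mul_pos a3 c1.pos, ?_⟩
    have ha3 : (0 : ℝ) < ((∏ p ∈ S, p : ℕ) : ℝ) := by exact_mod_cast a3
    rw [le_div_iff₀ ha3] at c3
    have : ((((∏ q ∈ S, q) * p : ℕ)) : ℝ) ≤ N := by
      rw [Nat.cast_mul, mul_comm]
      exact c3
    exact_mod_cast this
  · intro m hm
    rw [Finset.mem_image] at hm
    obtain ⟨⟨S, p⟩, hSp, rfl⟩ := hm
    rw [hT, Finset.mem_sigma] at hSp
    obtain ⟨hS, hp⟩ := hSp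
    simp only at hS hp
    obtain ⟨a1, a2, a3, a4, a5⟩ := hprop S hS
    obtain ⟨c1, c2, c3, c4⟩ := hQprop _ a4 p hp
    simp only
    have h1 : ¬ p ∣ ∏ q ∈ S, q := by
      apply not_dvd_prod (fun q hq => (a1 q hq).1) c1
      intro h
      have := (a1 p h).2.2
      linarith
    have h2 := gr_mul_prime a3 c1 c2 h1
    have h3 := gr_prod (S := S) (fun q hq => ⟨(a1 q hq).1, (a1 q hq).2.1⟩)
    rw [a2] at h3
    have hpS : p ∉ S := fun h => by
      have := (a1 p h).2.2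
      linarith
    constructor
    · calc 2 ^ (k + 1) = 2 * 2 ^ k := by ring
        _ ≤ 2 * gr (∏ q ∈ S, q) := by omega
        _ ≤ _ := h2
    · have e1 : (∏ q ∈ S, q) * p = ∏ q ∈ insert p S, q := by
        rw [Finset.prod_insert hpS, mul_comm]
      rw [e1, Nat.primeFactors_prod, Finset.card_insert_of_notMem hpS, a2]
      intro q hq
      rw [Finset.mem_insert] at hq
      rcases hq with rfl | hq
      · exact c1
      · exact (a1 q hq).1
  · rw [Finset.card_image_of_injOn hinj, hT, Finset.card_sigma, Finset.mul_sum, Nat.cast_sum]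
    refine Finset.sum_le_sum fun S hS => ?_
    obtain ⟨a1, a2, a3, a4, a5⟩ := hprop S hS
    have ha3 : (0 : ℝ) < ((∏ p ∈ S, p : ℕ) : ℝ) := by exact_mod_cast a3
    have h1 := hQ _ a4
    have hy1 : 1 < (N : ℝ) / ((∏ p ∈ S, p : ℕ) : ℝ) := lt_of_lt_of_le hsq1 a4
    have hl1 : 0 < Real.log ((N : ℝ) / ((∏ p ∈ S, p : ℕ) : ℝ)) := Real.log_pos hy1
    have hl2 : Real.log ((N : ℝ) / ((∏ p ∈ S, p : ℕ) : ℝ)) ≤ Real.log N :=
      Real.log_le_log (by linarith) a5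
    refine le_trans ?_ h1
    have h2 : c * ((N : ℝ) / ((∏ p ∈ S, p : ℕ) : ℝ)) / Real.log N ≤
        c * ((N : ℝ) / ((∏ p ∈ S, p : ℕ) : ℝ)) /
          Real.log ((N : ℝ) / ((∏ p ∈ S, p : ℕ) : ℝ)) :=
      div_le_div_of_nonneg_left (by positivity) hl1 hl2
    refine le_trans (le_of_eq ?_) h2
    push_cast
    ring

/-- B2, from the three statements on primes -/
theorem count_k_of'
    (hM : ∃ C : ℝ, ∀ z : ℝ, 3 ≤ z →
      Real.log (Real.log z) / 2 - C ≤ ∑ p ∈ P1 z, (1 : ℝ) / p)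
    (hL : ∃ C : ℝ, ∀ z : ℝ, 1 ≤ z → ∑ p ∈ P1 z, Real.log p / p ≤ Real.log z + C)
    (hP : ∃ c : ℝ, 0 < c ∧ ∀ᶠ y : ℝ in atTop,
      c * y / Real.log y ≤ ((P1 y).filter (fun p : ℕ => y / 2 < p)).card) :
    ∃ c : ℝ, 0 < c ∧ ∃ N₀ : ℕ, ∀ N : ℕ, N₀ ≤ N → ∀ k : ℕ, 1 ≤ k →
    (k : ℝ) ≤ 13 / 10 * Real.log (Real.log N) →
    ∃ M : Finset ℕ, M ⊆ Finset.Icc 1 N ∧ (∀ m ∈ M, 2 ^ k ≤ gr m ∧ m.primeFactors.card = k) ∧
      c * (N / Real.log N) * ((Real.log (Real.log N) / 2) ^ (k - 1) / (k - 1).factorial) ≤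
        M.card := by
  obtain ⟨C₁, hC₁⟩ := hM
  obtain ⟨C₂, hC₂⟩ := hL
  obtain ⟨c, hc, hcy⟩ := hP
  obtain ⟨Y, hY⟩ := eventually_atTop.1 hcy
  set C₃ : ℝ := max (C₁ + Real.log 30 / 2) 0 with hC₃
  have hC₃0 : 0 ≤ C₃ := le_max_right _ _
  -- all the thresholds
  have t0 : Tendsto (fun N : ℕ => (N : ℝ)) atTop atTop := tendsto_natCast_atTop_atTop
  have t1 : Tendsto (fun N : ℕ => Real.log (N : ℝ)) atTop atTop := Real.tendsto_log_atTop.comp t0
  have t2 : Tendsto (fun N : ℕ => Real.log (Real.log (N : ℝ))) atTop atTop :=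
    Real.tendsto_log_atTop.comp t1
  have t3 : Tendsto (fun N : ℕ => √(N : ℝ)) atTop atTop := Real.tendsto_sqrt_atTop.comp t0
  have e1 := t1.eventually_ge_atTop (60 : ℝ)
  have e2 := t1.eventually_ge_atTop (60 * |C₂| + 1)
  have e3 := t2.eventually_ge_atTop (15 * C₃ + 1)
  have e4 := t3.eventually_ge_atTop Y
  have e5 := eventually_ge_atTop (2 : ℕ)
  obtain ⟨N₀, hN₀⟩ := eventually_atTop.1 (e1.and (e2.and (e3.and (e4.and e5))))
  refine ⟨c * (1 / 2 * Real.exp (-(6 * C₃))), by positivity, N₀, ?_⟩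
  intro N hN k hk1 hk
  obtain ⟨f1, f2, f3, f4, f5⟩ := hN₀ N hN
  obtain ⟨j, rfl⟩ : ∃ j, k = j + 1 := ⟨k - 1, by omega⟩
  rw [Nat.add_sub_cancel]
  push_cast at hk
  set L := Real.log (N : ℝ) with hLdef
  set x := Real.log L / 2 with hxdef
  have hL0 : 0 < L := by linarith
  have hx0 : 0 < x := by rw [hxdef]; linarith
  have hN0 : (0 : ℝ) < N := by positivity
  have hNexp : (N : ℝ) = Real.exp L := by rw [hLdef, Real.exp_log hN0]
  have hsqrt : √(N : ℝ) = Real.exp (L / 2) := by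
    rw [hNexp, Real.sqrt_eq_rpow, ← Real.exp_mul]
    congr 1
    ring
  set z := Real.exp (L / 30) with hz
  have hlz : Real.log z = L / 30 := by rw [hz, Real.log_exp]
  have hz3 : 3 ≤ z := by
    rw [hz]
    have := Real.add_one_le_exp (L / 30)
    linarith
  have h1 : x - C₃ ≤ ∑ p ∈ P1 z, (1 : ℝ) / p := by
    refine le_trans ?_ (hC₁ z hz3)
    rw [hlz, Real.log_div hL0.ne' (by norm_num)]
    have : C₁ + Real.log 30 / 2 ≤ C₃ := le_max_left _ _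
    rw [hxdef]
    linarith
  have h2 := hC₂ z (by linarith)
  have h3 : 30 / L * C₂ ≤ 1 / 2 := by
    rw [div_mul_eq_mul_div, div_le_div_iff₀ hL0 (by norm_num)]
    have := le_abs_self C₂
    linarith
  have hj0 : (0 : ℝ) ≤ j := Nat.cast_nonneg j
  have h4 := sum_lower (k := j) hL0 hx0 hz hC₃0 h1 h2 h3 (by rw [hxdef]; linarith)
    (by rw [hxdef]; linarith)
  -- the set
  have hzs : z < √(N : ℝ) / 2 := by
    rw [hsqrt, hz]
    have h5 : Real.exp (L / 2) = Real.exp (L / 30) * Real.exp (7 * L / 15) := by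
      rw [← Real.exp_add]
      congr 1
      ring
    have h6 : 2 < Real.exp (7 * L / 15) := by
      have := Real.add_one_le_exp (7 * L / 15)
      linarith
    have h7 : 0 < Real.exp (L / 30) := Real.exp_pos _
    rw [h5]
    nlinarith
  obtain ⟨M, hM1, hM2, hM3⟩ := build' (k := j) hc.le f5 hzs (fun y hy => hY y (le_trans f4 hy))
  refine ⟨M, hM1, hM2, le_trans ?_ hM3⟩
  rw [hsqrt]
  have h8 : 0 ≤ c * ((N : ℝ) / L) := by positivity
  calc c * (1 / 2 * Real.exp (-(6 * C₃))) * ((N : ℝ) / L) * (x ^ j / j.factorial) =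
      c * ((N : ℝ) / L) * (1 / 2 * (Real.exp (-(6 * C₃)) * x ^ j) / j.factorial) := by ring
    _ ≤ _ := mul_le_mul_of_nonneg_left h4 h8

end

end Pool.Agent.Helper22.RZ
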