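import Mathlib
import Pool.Agent.Helper22.RZ.Count

/-!
# The threshold set of the frequencies

Union over the numbers of prime factors in a window of the Poisson distribution.
-/

open Filter
open scoped Real

namespace Pool.Agent.Helper22.RZ

open Pool.Agent.Helper22.GC Pool.Agent.Helper53.OM Pool.Agent.Helper53.OM.Cnt

noncomputable section

lemma kap_le' : kap ≤ 63 / 50 := by
  by_contra h
  push Not at h
  have h2 : (63 / 50 : ℝ) ^ 3 < kap ^ 3 := by gcongr
  rw [kap_cube] at h2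
  norm_num at h2

lemma two_rpow_four_thirds : (2 : ℝ) ^ (4 / 3 : ℝ) = 2 * kap := by
  unfold kap
  rw [show (4 / 3 : ℝ) = 1 + 1 / 3 by norm_num, Real.rpow_add (by norm_num), Real.rpow_one]

/-- one Poisson term near the mean -/
lemma poisson_term {lam : ℝ} (hl : 1 ≤ lam) {j : ℕ} (h1 : lam ≤ j) (h2 : (j : ℝ) ≤ lam + √lam) :
    Real.exp lam / (12 * √lam) ≤ lam ^ j / j.factorial := by
  have hl0 : 0 < lam := by linarith
  have hj0 : (0 : ℝ) < j := by linarith
  have hj1 : 1 ≤ j := by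
    have : (0 : ℝ) < j := hj0
    exact_mod_cast this
  have hs0 : 0 < √lam := Real.sqrt_pos.mpr hl0
  have hsq : √lam * √lam = lam := Real.mul_self_sqrt hl0.le
  have hf := fact_le j hj1
  have hsl : √lam ≤ lam := by
    have : 1 ≤ √lam := by rw [Real.one_le_sqrt]; exact hl
    nlinarith
  -- `√ j ≤ (3/2) √ lam`
  have hsj : √(j : ℝ) ≤ 3 / 2 * √lam := by
    rw [Real.sqrt_le_left (by positivity)]
    nlinarith
  have h3 : lam ^ j / (Real.exp 1 * √j * ((j : ℝ) / Real.exp 1) ^ j) ≤ lam ^ j / j.factorial := by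
    gcongr
  refine le_trans ?_ h3
  have h4 : lam ^ j / (Real.exp 1 * √j * ((j : ℝ) / Real.exp 1) ^ j)
      = Real.exp (j * (1 + Real.log lam - Real.log j)) / (Real.exp 1 * √j) := by
    have h4 : Real.exp (j * (1 + Real.log lam - Real.log j)) = (Real.exp 1 * lam / j) ^ j := by
      rw [← Real.exp_log (show 0 < Real.exp 1 * lam / j by positivity), ← Real.exp_nat_mul]
      congr 2
      rw [Real.log_div (by positivity) (by positivity), Real.log_mul (by positivity) (by positivity),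
        Real.log_exp]
    rw [h4, div_pow, div_pow, mul_pow]
    field_simp
  rw [h4]
  have h5 : lam - 1 ≤ j * (1 + Real.log lam - Real.log j) := by
    have h6 : Real.log j - Real.log lam ≤ j / lam - 1 := by
      rw [← Real.log_div hj0.ne' hl0.ne']
      exact Real.log_le_sub_one_of_pos (by positivity)
    have h7 : (j : ℝ) * (2 - j / lam) ≤ j * (1 + Real.log lam - Real.log j) :=
      mul_le_mul_of_nonneg_left (by linarith) hj0.le
    refine le_trans ?_ h7
    have h8 : (j : ℝ) * (2 - j / lam) = lam - (j - lam) ^ 2 / lam := by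
      field_simp
      ring
    rw [h8]
    have h9 : (j - lam) ^ 2 / lam ≤ 1 := by
      rw [div_le_one hl0]
      calc ((j : ℝ) - lam) ^ 2 ≤ (√lam) ^ 2 := by
            apply pow_le_pow_left₀ (by linarith) (by linarith)
        _ = lam := by rw [sq, hsq]
    linarith
  have h10 : Real.exp lam / (12 * √lam) ≤ Real.exp (lam - 1) / (Real.exp 1 * √j) := by
    rw [div_le_div_iff₀ (by positivity) (by positivity)]
    have h11 : Real.exp lam = Real.exp (lam - 1) * Real.exp 1 := by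
      rw [← Real.exp_add]; congr 1; ring
    rw [h11]
    have h12 : Real.exp 1 * (Real.exp 1 * √j) ≤ 12 * √lam := by
      have h13 := Real.exp_one_lt_d9
      have h14 : Real.exp 1 * Real.exp 1 ≤ 8 := by
        have := Real.exp_pos 1
        nlinarith
      calc Real.exp 1 * (Real.exp 1 * √j) = Real.exp 1 * Real.exp 1 * √j := by ring
        _ ≤ 8 * (3 / 2 * √lam) := mul_le_mul h14 hsj (Real.sqrt_nonneg _) (by norm_num)
        _ = _ := by ring
    calc Real.exp (lam - 1) * Real.exp 1 * (Real.exp 1 * √j)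
        = Real.exp (lam - 1) * (Real.exp 1 * (Real.exp 1 * √j)) := by ring
      _ ≤ Real.exp (lam - 1) * (12 * √lam) :=
          mul_le_mul_of_nonneg_left h12 (Real.exp_pos _).le
  refine h10.trans ?_
  exact div_le_div_of_nonneg_right (Real.exp_le_exp.mpr h5) (by positivity)

/-- the window -/
def win (lam : ℝ) : Finset ℕ := Finset.Icc ⌈lam⌉₊ ⌊lam + √lam⌋₊

lemma mem_win {lam : ℝ} (hl : 0 ≤ lam) {j : ℕ} : j ∈ win lam ↔ lam ≤ j ∧ (j : ℝ) ≤ lam + √lam := by
  rw [win, Finset.mem_Icc, Nat.ceil_le, Nat.le_floor_iff (by positivity)]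

lemma card_win {lam : ℝ} (hl : 4 ≤ lam) : √lam / 2 ≤ (win lam).card := by
  have h2 : 2 ≤ √lam := Real.le_sqrt_of_sq_le (by norm_num; linarith)
  have h3 := Nat.ceil_lt_add_one (show 0 ≤ lam by linarith)
  have h4 := Nat.lt_floor_add_one (lam + √lam)
  have h5 : ⌈lam⌉₊ ≤ ⌊lam + √lam⌋₊ + 1 := by
    have : (⌈lam⌉₊ : ℝ) < (⌊lam + √lam⌋₊ : ℝ) + 1 + 1 := by linarith
    have : (⌈lam⌉₊ : ℝ) < ((⌊lam + √lam⌋₊ + 1 + 1 : ℕ) : ℝ) := by push_cast; exact this
    have := Nat.cast_lt.mp this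
    omega
  rw [win, Nat.card_Icc, Nat.cast_sub h5]
  push_cast
  linarith

lemma poisson_sum {lam : ℝ} (hl : 4 ≤ lam) :
    Real.exp lam / 24 ≤ ∑ j ∈ win lam, lam ^ j / j.factorial := by
  have hs0 : 0 < √lam := Real.sqrt_pos.mpr (by linarith)
  calc Real.exp lam / 24 = √lam / 2 * (Real.exp lam / (12 * √lam)) := by field_simp; norm_num
    _ ≤ (win lam).card * (Real.exp lam / (12 * √lam)) :=
        mul_le_mul_of_nonneg_right (card_win hl) (by positivity)
    _ = ∑ j ∈ win lam, Real.exp lam / (12 * √lam) := by rw [Finset.sum_const, nsmul_eq_mul]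
    _ ≤ _ := by
        refine Finset.sum_le_sum fun j hj => ?_
        rw [mem_win (by linarith)] at hj
        exact poisson_term (by linarith) hj.1 hj.2

/-- C: the threshold set -/
theorem count_union : ∃ c : ℝ, 0 < c ∧ ∃ V₀ : ℝ, ∀ V : ℝ, V₀ ≤ V →
    ∃ M : Finset ℕ, M ⊆ Finset.Icc 1 ⌊V ^ 2⌋₊ ∧
      (∀ K ∈ M, V ^ (-(3 / 4) : ℝ) ≤ gr K * (K : ℝ) ^ (-(3 / 4) : ℝ)) ∧
      c * V * (Real.log V) ^ (kap - 1) ≤ M.card := by
  classical
  obtain ⟨c, hc, N₀, hN⟩ := count_k_of' mertens4 mertens_log primes_half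
  have t1 : Tendsto Real.log atTop atTop := Real.tendsto_log_atTop
  have t2 : Tendsto (fun V : ℝ => Real.log (Real.log V)) atTop atTop := t1.comp t1
  have e1 := eventually_ge_atTop (max (N₀ : ℝ) 3)
  have e2 := t2.eventually_ge_atTop (10000 : ℝ)
  obtain ⟨V₀, hV₀⟩ := eventually_atTop.1 (e1.and e2)
  refine ⟨c / 96, by positivity, V₀, ?_⟩
  intro V hV
  obtain ⟨f1, f2⟩ := hV₀ V hV
  have hVN : (N₀ : ℝ) ≤ V := (le_max_left _ _).trans f1
  have hV3 : (3 : ℝ) ≤ V := (le_max_right _ _).trans f1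
  have hV0 : 0 < V := by linarith
  have hk0 := kap_pos
  have hk1 := kap_le'
  have hk2 := kap_ge
  set u := Real.log (Real.log V) with hu
  set lam : ℝ := kap * u with hlam
  have hlam4 : 12500 ≤ lam := by rw [hlam]; nlinarith
  have hlV : 0 < Real.log V := Real.log_pos (by linarith)
  have hexpu : Real.exp u = Real.log V := by rw [hu, Real.exp_log hlV]
  have hlogV : 2 * u ≤ Real.log V := by
    rw [← hexpu]
    have h := Real.quadratic_le_exp_of_nonneg (show 0 ≤ u by linarith)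
    nlinarith
  have hslam : √lam ≤ lam / 100 := by
    rw [Real.sqrt_le_left (by positivity)]
    nlinarith
  have hVexp : V = Real.exp (Real.log V) := (Real.exp_log hV0).symm
  -- the levels
  set Vj : ℕ → ℝ := fun j => V * (2 : ℝ) ^ (4 / 3 * ((j : ℝ) + 1)) with hVj
  set Nj : ℕ → ℕ := fun j => ⌊Vj j⌋₊ with hNj
  have hp1 : ∀ j : ℕ, 2 ≤ (2 : ℝ) ^ (4 / 3 * ((j : ℝ) + 1)) := by
    intro j
    calc (2 : ℝ) = (2 : ℝ) ^ (1 : ℝ) := (Real.rpow_one 2).symm
      _ ≤ _ := by
        apply Real.rpow_le_rpow_of_exponent_le (by norm_num)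
        have : (0 : ℝ) ≤ j := Nat.cast_nonneg j
        linarith
  have hVjpos : ∀ j, 0 < Vj j := fun j => by
    have := hp1 j
    simp only [hVj]
    positivity
  have hVj2 : ∀ j, 2 * V ≤ Vj j := fun j => by
    have := hp1 j
    simp only [hVj]
    nlinarith
  have hNj1 : ∀ j, (Nj j : ℝ) ≤ Vj j := fun j => Nat.floor_le (hVjpos j).le
  have hNj2 : ∀ j, Vj j / 2 ≤ Nj j := fun j => by
    have h1 := Nat.lt_floor_add_one (Vj j)
    have h2 := hVj2 j
    have h3 : Vj j < (Nj j : ℝ) + 1 := h1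
    linarith
  have hNj3 : ∀ j, V ≤ Nj j := fun j => by
    have := hNj2 j
    have := hVj2 j
    linarith
  -- upper bound for the levels
  have hwin : ∀ j ∈ win lam, (j : ℝ) + 1 ≤ 13 / 10 * u := by
    intro j hj
    rw [mem_win (by linarith)] at hj
    have : lam ≤ 63 / 50 * u := by rw [hlam]; nlinarith
    linarith [hj.2]
  have hVjup : ∀ j ∈ win lam, Real.log (Vj j) ≤ 2 * Real.log V := by
    intro j hj
    have h1 := hwin j hj
    simp only [hVj]
    rw [Real.log_mul hV0.ne' (by positivity), Real.log_rpow (by norm_num)]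
    have h2 := Real.log_two_lt_d9
    have h3 : 0 < Real.log 2 := Real.log_pos (by norm_num)
    have h4 : 4 / 3 * ((j : ℝ) + 1) * Real.log 2 ≤ (j + 1) := by
      have : (0 : ℝ) ≤ (j : ℝ) + 1 := by positivity
      nlinarith
    linarith
  have key : ∀ j ∈ win lam, ∃ M : Finset ℕ, M ⊆ Finset.Icc 1 (Nj j) ∧
      (∀ m ∈ M, 2 ^ (j + 1) ≤ gr m ∧ m.primeFactors.card = j + 1) ∧
      c / 4 * (V / Real.log V) * (lam ^ j / j.factorial) ≤ M.card := by
    intro j hj
    have hNjN : N₀ ≤ Nj j := by exact_mod_cast hVN.trans (hNj3 j)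
    have hNjpos : (0 : ℝ) < Nj j := lt_of_lt_of_le hV0 (hNj3 j)
    have hlN : Real.log V ≤ Real.log (Nj j) := Real.log_le_log hV0 (hNj3 j)
    have hllN : u ≤ Real.log (Real.log (Nj j)) := Real.log_le_log hlV hlN
    have hlN2 : Real.log (Nj j) ≤ 2 * Real.log V :=
      (Real.log_le_log hNjpos (hNj1 j)).trans (hVjup j hj)
    obtain ⟨M, hM1, hM2, hM3⟩ := hN (Nj j) hNjN (j + 1) (by omega) (by
      push_cast
      have := hwin j hj
      linarith)
    refine ⟨M, hM1, hM2, le_trans ?_ hM3⟩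
    rw [Nat.add_sub_cancel]
    have h5 : (u / 2) ^ j / j.factorial ≤ (Real.log (Real.log (Nj j)) / 2) ^ j / j.factorial := by
      have : (0 : ℝ) ≤ u / 2 := by linarith
      gcongr
    have h6 : V * (2 : ℝ) ^ (4 / 3 * ((j : ℝ) + 1)) / 2 / (2 * Real.log V) ≤ Nj j / Real.log (Nj j) := by
      have h7 := hNj2 j
      apply div_le_div₀ hNjpos.le h7 (by linarith) hlN2
    have h8 : (2 : ℝ) ^ (4 / 3 * ((j : ℝ) + 1)) = (2 * kap) * (2 * kap) ^ j := by
      rw [mul_comm (4 / 3 : ℝ), Real.rpow_mul (by norm_num), ← Real.rpow_natCast, ← two_rpow_four_thirds,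
        ← Real.rpow_mul (by norm_num), ← Real.rpow_mul (by norm_num), ← Real.rpow_add (by norm_num)]
      congr 1
      ring
    have h9 : c / 4 * (V / Real.log V) * (lam ^ j / j.factorial) ≤
        c * (V * (2 : ℝ) ^ (4 / 3 * ((j : ℝ) + 1)) / 2 / (2 * Real.log V)) *
          ((u / 2) ^ j / j.factorial) := by
      rw [h8]
      have h10 : c * (V * (2 * kap * (2 * kap) ^ j) / 2 / (2 * Real.log V)) * ((u / 2) ^ j / j.factorial)
          = 2 * kap * (c / 4 * (V / Real.log V) * (lam ^ j / j.factorial)) := by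
        have h11 : lam ^ j = (2 * kap) ^ j * (u / 2) ^ j := by
          rw [← mul_pow, hlam]
          congr 1
          ring
        rw [h11]
        field_simp
        norm_num
      rw [h10]
      have h12 : 0 ≤ c / 4 * (V / Real.log V) * (lam ^ j / j.factorial) := by
        have : (0 : ℝ) ≤ lam := by linarith
        positivity
      nlinarith
    refine h9.trans ?_
    apply mul_le_mul (mul_le_mul_of_nonneg_left h6 hc.le) h5
    · have : (0 : ℝ) ≤ u / 2 := by linarith
      positivity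
    · have : 0 ≤ Real.log (Nj j : ℝ) := by linarith
      positivity
  choose! Mj hMj1 hMj2 hMj3 using key
  have hdisj : Set.PairwiseDisjoint (↑(win lam)) Mj := by
    intro i hi j hj hij
    rw [Function.onFun, Finset.disjoint_left]
    intro m hmi hmj
    have h1 := (hMj2 i hi m hmi).2
    have h2 := (hMj2 j hj m hmj).2
    omega
  refine ⟨(win lam).biUnion Mj, ?_, ?_, ?_⟩
  · intro K hK
    rw [Finset.mem_biUnion] at hK
    obtain ⟨j, hj, hK⟩ := hK
    have h1 := Finset.mem_Icc.mp (hMj1 j hj hK)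
    rw [Finset.mem_Icc]
    refine ⟨h1.1, Nat.le_floor ?_⟩
    have h2 : (K : ℝ) ≤ Nj j := by exact_mod_cast h1.2
    refine h2.trans ((hNj1 j).trans ?_)
    have h3 := hVjup j hj
    calc Vj j = Real.exp (Real.log (Vj j)) := (Real.exp_log (hVjpos j)).symm
      _ ≤ Real.exp (2 * Real.log V) := Real.exp_le_exp.mpr h3
      _ = V ^ 2 := by
        rw [show (2 : ℝ) * Real.log V = ((2 : ℕ) : ℝ) * Real.log V by norm_num, ← Real.log_pow,
          Real.exp_log (by positivity)]
  · intro K hK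
    rw [Finset.mem_biUnion] at hK
    obtain ⟨j, hj, hK⟩ := hK
    have h1 := Finset.mem_Icc.mp (hMj1 j hj hK)
    have hK0 : (0 : ℝ) < K := by exact_mod_cast h1.1
    have h2 : (K : ℝ) ≤ Vj j := by
      have : (K : ℝ) ≤ Nj j := by exact_mod_cast h1.2
      exact this.trans (hNj1 j)
    have h3 : (2 : ℝ) ^ (j + 1) ≤ gr K := by exact_mod_cast (hMj2 j hj K hK).1
    have h4 : (Vj j) ^ (-(3 / 4) : ℝ) ≤ (K : ℝ) ^ (-(3 / 4) : ℝ) :=
      Real.rpow_le_rpow_of_nonpos hK0 h2 (by norm_num)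
    have h5 : V ^ (-(3 / 4) : ℝ) = (2 : ℝ) ^ (j + 1) * (Vj j) ^ (-(3 / 4) : ℝ) := by
      simp only [hVj]
      rw [Real.mul_rpow hV0.le (by positivity), ← Real.rpow_mul (by norm_num), ← Real.rpow_natCast]
      have h6 : (2 : ℝ) ^ ((j + 1 : ℕ) : ℝ) * (V ^ (-(3 / 4) : ℝ) * (2 : ℝ) ^ (4 / 3 * ((j : ℝ) + 1) * -(3 / 4)))
          = V ^ (-(3 / 4) : ℝ) * ((2 : ℝ) ^ ((j + 1 : ℕ) : ℝ) * (2 : ℝ) ^ (4 / 3 * ((j : ℝ) + 1) * -(3 / 4))) := by
        ring
      rw [h6, ← Real.rpow_add (by norm_num)]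
      push_cast
      have h7 : (j : ℝ) + 1 + 4 / 3 * ((j : ℝ) + 1) * -(3 / 4) = 0 := by ring
      rw [h7, Real.rpow_zero, mul_one]
    rw [h5]
    exact mul_le_mul h3 h4 (Real.rpow_nonneg (hVjpos j).le _) (Nat.cast_nonneg _)
  · rw [Finset.card_biUnion hdisj]
    push_cast
    have h1 : ∑ j ∈ win lam, c / 4 * (V / Real.log V) * (lam ^ j / j.factorial)
        ≤ ∑ j ∈ win lam, ((Mj j).card : ℝ) := Finset.sum_le_sum fun j hj => hMj3 j hj
    refine le_trans ?_ h1
    rw [← Finset.mul_sum]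
    have h2 := poisson_sum (lam := lam) (by linarith)
    have h3 : Real.exp lam = (Real.log V) ^ kap := by
      rw [Real.rpow_def_of_pos hlV, hlam, hu, mul_comm]
    have h4 : c / 4 * (V / Real.log V) * (Real.exp lam / 24) ≤
        c / 4 * (V / Real.log V) * ∑ j ∈ win lam, lam ^ j / j.factorial :=
      mul_le_mul_of_nonneg_left h2 (by positivity)
    refine le_trans (le_of_eq ?_) h4
    rw [h3, Real.rpow_sub_one hlV.ne']
    field_simp
    norm_num

end

end Pool.Agent.Helper22.RZ
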