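import Mathlib
import Pool.Agent.Helper22.RZ.Window
import Pool.Agent.Helper22.RZ.Core

/-!
# Choice of the parameters
-/

open Filter
open scoped Real Topology

namespace Pool.Agent.Helper22.RZ

open Pool.Agent.Helper22.GC Pool.Agent.Helper53.OM

noncomputable section

/-- the size of the large values -/
def gn (Y : ℝ) : ℝ := (Real.log Y) ^ (1 / 4 : ℝ) * (Real.log (Real.log Y)) ^ (3 / 4 * (kap - 1))

lemma gn_nonneg {Y : ℝ} (hY : 3 ≤ Y) : 0 ≤ gn Y := by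
  have h1 : 1 ≤ Real.log Y := by
    rw [Real.le_log_iff_exp_le (by linarith)]
    linarith [Real.exp_one_lt_d9]
  exact mul_nonneg (Real.rpow_nonneg (by linarith) _) (Real.rpow_nonneg (Real.log_nonneg h1) _)

/-- comparison of `gn` at `R ≤ Y ^ k` with `gn` at `Y` -/
lemma gn_compare {k : ℝ} (hk : 1 ≤ k) : ∃ Y₀ : ℝ, 3 ≤ Y₀ ∧ ∀ Y : ℝ, Y₀ ≤ Y → ∀ R : ℝ, 3 ≤ R →
    R ≤ Y ^ k → gn R ≤ 2 * k * gn Y := by
  have t2 : Tendsto (fun V : ℝ => Real.log (Real.log V)) atTop atTop :=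
    Real.tendsto_log_atTop.comp Real.tendsto_log_atTop
  have e1 := t2.eventually_ge_atTop (max (Real.log k) 1)
  obtain ⟨Y₀, hY₀⟩ := eventually_atTop.1 (e1.and (eventually_ge_atTop (3 : ℝ)))
  refine ⟨max Y₀ 3, le_max_right _ _, ?_⟩
  intro Y hY R hR hRY
  obtain ⟨f1, f2⟩ := hY₀ Y ((le_max_left _ _).trans hY)
  have g1 := (le_max_left (Real.log k) 1).trans f1
  have g2 := (le_max_right (Real.log k) 1).trans f1
  have hk0 : 0 < k := by linarith
  have h1 : 1 ≤ Real.log R := by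
    rw [Real.le_log_iff_exp_le (by linarith)]
    linarith [Real.exp_one_lt_d9]
  have h1' : 1 ≤ Real.log Y := by
    rw [Real.le_log_iff_exp_le (by linarith)]
    linarith [Real.exp_one_lt_d9]
  have h2 : Real.log R ≤ k * Real.log Y := by
    have := Real.log_le_log (by linarith) hRY
    rwa [Real.log_rpow (by linarith)] at this
  have h3 : Real.log (Real.log R) ≤ 2 * Real.log (Real.log Y) := by
    have := Real.log_le_log (by linarith) h2
    rw [Real.log_mul hk0.ne' (by linarith)] at this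
    linarith
  have h4 : 0 ≤ Real.log (Real.log R) := Real.log_nonneg h1
  have hkap0 := kap_ge
  have hkap1 := kap_le'
  have h5 : (Real.log R) ^ (1 / 4 : ℝ) ≤ k * (Real.log Y) ^ (1 / 4 : ℝ) := by
    calc (Real.log R) ^ (1 / 4 : ℝ) ≤ (k * Real.log Y) ^ (1 / 4 : ℝ) :=
          Real.rpow_le_rpow (by linarith) h2 (by norm_num)
      _ = k ^ (1 / 4 : ℝ) * (Real.log Y) ^ (1 / 4 : ℝ) := Real.mul_rpow hk0.le (by linarith)
      _ ≤ k ^ (1 : ℝ) * (Real.log Y) ^ (1 / 4 : ℝ) := by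
          apply mul_le_mul_of_nonneg_right _ (Real.rpow_nonneg (by linarith) _)
          exact Real.rpow_le_rpow_of_exponent_le hk (by norm_num)
      _ = _ := by rw [Real.rpow_one]
  have h6 : (Real.log (Real.log R)) ^ (3 / 4 * (kap - 1)) ≤
      2 * (Real.log (Real.log Y)) ^ (3 / 4 * (kap - 1)) := by
    calc (Real.log (Real.log R)) ^ (3 / 4 * (kap - 1))
        ≤ (2 * Real.log (Real.log Y)) ^ (3 / 4 * (kap - 1)) :=
          Real.rpow_le_rpow h4 h3 (by linarith)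
      _ = 2 ^ (3 / 4 * (kap - 1)) * (Real.log (Real.log Y)) ^ (3 / 4 * (kap - 1)) :=
          Real.mul_rpow (by norm_num) (by linarith)
      _ ≤ 2 ^ (1 : ℝ) * (Real.log (Real.log Y)) ^ (3 / 4 * (kap - 1)) := by
          apply mul_le_mul_of_nonneg_right _ (Real.rpow_nonneg (by linarith) _)
          exact Real.rpow_le_rpow_of_exponent_le (by norm_num) (by linarith)
      _ = _ := by rw [Real.rpow_one]
  unfold gn
  calc (Real.log R) ^ (1 / 4 : ℝ) * (Real.log (Real.log R)) ^ (3 / 4 * (kap - 1))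
      ≤ (k * (Real.log Y) ^ (1 / 4 : ℝ)) * (2 * (Real.log (Real.log Y)) ^ (3 / 4 * (kap - 1))) :=
        mul_le_mul h5 h6 (Real.rpow_nonneg h4 _) (by
          have : 0 ≤ (Real.log Y) ^ (1 / 4 : ℝ) := Real.rpow_nonneg (by linarith) _
          positivity)
    _ = _ := by ring

/-- `gn` tends to infinity -/
lemma tendsto_gn : Tendsto gn atTop atTop := by
  have t1 : Tendsto (fun V : ℝ => (Real.log V) ^ (1 / 4 : ℝ)) atTop atTop :=
    (tendsto_rpow_atTop (by norm_num)).comp Real.tendsto_log_atTop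
  have t2 : Tendsto (fun V : ℝ => Real.log (Real.log V)) atTop atTop :=
    Real.tendsto_log_atTop.comp Real.tendsto_log_atTop
  refine tendsto_atTop_mono' atTop ?_ t1
  filter_upwards [t2.eventually_ge_atTop (1 : ℝ), eventually_ge_atTop (3 : ℝ)] with V hV hV3
  have h1' : 1 ≤ Real.log V := by
    rw [Real.le_log_iff_exp_le (by linarith)]
    linarith [Real.exp_one_lt_d9]
  unfold gn
  refine le_mul_of_one_le_right (Real.rpow_nonneg (by linarith) _) ?_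
  exact Real.one_le_rpow hV (by linarith [kap_ge])

/-- the set of the frequencies for the budget `a log Y` -/
theorem freq_set {a : ℝ} (ha : 0 < a) : ∃ c : ℝ, 0 < c ∧ ∃ Y₀ : ℝ, ∀ Y : ℝ, Y₀ ≤ Y →
    ∃ N : ℕ, ∃ M : Finset ℕ, 1 ≤ N ∧ (N : ℝ) ≤ (Real.log Y) ^ 4 ∧ M ⊆ Finset.Icc 1 N ∧
      (M.card : ℝ) ≤ a * Real.log Y ∧
      c * gn Y ≤ ∑ K ∈ M, (gr K : ℝ) * (K : ℝ) ^ (-(3 / 4) : ℝ) := by
  obtain ⟨c₁, hc₁, V₀, hV⟩ := count_union
  set B : ℝ := 2 * a / c₁ with hB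
  have hB0 : 0 < B := by positivity
  have hkap0 := kap_ge
  have hkap1 := kap_le'
  have t1 : Tendsto Real.log atTop atTop := Real.tendsto_log_atTop
  have t2 : Tendsto (fun V : ℝ => Real.log (Real.log V)) atTop atTop := t1.comp t1
  have t3 : Tendsto (fun V : ℝ => (Real.log V) ^ (1 / 4 : ℝ)) atTop atTop :=
    (tendsto_rpow_atTop (by norm_num)).comp t1
  have t4 : Tendsto (fun V : ℝ => √(Real.log V)) atTop atTop := Real.tendsto_sqrt_atTop.comp t1
  have e1 := t1.eventually_ge_atTop (max (max 1 B) (4 / a))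
  have e2 := t2.eventually_ge_atTop (1 : ℝ)
  have e3 := t3.eventually_ge_atTop (4 / B)
  have e4 := t4.eventually_ge_atTop (max V₀ 1)
  obtain ⟨Y₀, hY₀⟩ := eventually_atTop.1 (e1.and (e2.and (e3.and e4)))
  refine ⟨a / 2 * B ^ (-(3 / 4) : ℝ), by positivity, Y₀, ?_⟩
  intro Y hY
  obtain ⟨f1, f2, f3, f4⟩ := hY₀ Y hY
  set y := Real.log Y with hy
  have hy1 : 1 ≤ y := (le_max_left 1 B).trans ((le_max_left _ _).trans f1)
  have hyB : B ≤ y := (le_max_right 1 B).trans ((le_max_left _ _).trans f1)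
  have hya : 4 / a ≤ y := (le_max_right _ _).trans f1
  have hy0 : 0 < y := by linarith
  set y2 := Real.log y with hy2
  have hy20 : 0 < y2 := by linarith
  -- the level `V`
  set V : ℝ := B * y * y2 ^ (-(kap - 1)) with hVdef
  have hp0 : 0 < y2 ^ (-(kap - 1)) := Real.rpow_pos_of_pos hy20 _
  have hp1 : y2 ^ (-(kap - 1)) ≤ 1 := Real.rpow_le_one_of_one_le_of_nonpos f2 (by linarith)
  have hVup : V ≤ y ^ 2 := by
    have : V ≤ B * y * 1 := mul_le_mul_of_nonneg_left hp1 (by positivity)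
    nlinarith
  have hy2le : y2 ≤ 4 * y ^ (1 / 4 : ℝ) := by
    have := Real.log_le_rpow_div hy0.le (show (0 : ℝ) < 1 / 4 by norm_num)
    rw [hy2]
    linarith
  have hVlow : √y ≤ V := by
    have h1 : (4 * y ^ (1 / 4 : ℝ))⁻¹ ≤ y2 ^ (-(kap - 1)) := by
      calc (4 * y ^ (1 / 4 : ℝ))⁻¹ ≤ y2⁻¹ := inv_anti₀ hy20 hy2le
        _ = y2 ^ (-1 : ℝ) := (Real.rpow_neg_one y2).symm
        _ ≤ _ := Real.rpow_le_rpow_of_exponent_le f2 (by linarith)
    have h2 : B * y * (4 * y ^ (1 / 4 : ℝ))⁻¹ ≤ V := mul_le_mul_of_nonneg_left h1 (by positivity)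
    refine le_trans ?_ h2
    have hq0 : 0 < y ^ (1 / 4 : ℝ) := Real.rpow_pos_of_pos hy0 _
    rw [← div_eq_mul_inv, le_div_iff₀ (by positivity)]
    have h3 : y = √y * (y ^ (1 / 4 : ℝ) * y ^ (1 / 4 : ℝ)) := by
      rw [← Real.rpow_add hy0, Real.sqrt_eq_rpow, ← Real.rpow_add hy0]
      norm_num
    have h4 : 4 ≤ B * y ^ (1 / 4 : ℝ) := by
      have := mul_le_mul_of_nonneg_left f3 hB0.le
      rwa [mul_div_cancel₀ _ hB0.ne'] at this
    have h5 : 0 ≤ √y * y ^ (1 / 4 : ℝ) := by positivity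
    calc √y * (4 * y ^ (1 / 4 : ℝ)) = 4 * (√y * y ^ (1 / 4 : ℝ)) := by ring
      _ ≤ (B * y ^ (1 / 4 : ℝ)) * (√y * y ^ (1 / 4 : ℝ)) := mul_le_mul_of_nonneg_right h4 h5
      _ = B * (√y * (y ^ (1 / 4 : ℝ) * y ^ (1 / 4 : ℝ))) := by ring
      _ = B * y := by rw [← h3]
  have hsy1 : 1 ≤ √y := (le_max_right _ _).trans f4
  have hV1 : 1 ≤ V := hsy1.trans hVlow
  have hV0 : 0 < V := by linarith
  have hVV : V₀ ≤ V := ((le_max_left _ _).trans f4).trans hVlow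
  obtain ⟨M, hM1, hM2, hM3⟩ := hV V hVV
  -- the cardinality
  have hlogV : y2 / 2 ≤ Real.log V := by
    have := Real.log_le_log (by linarith) hVlow
    rw [Real.log_sqrt hy0.le] at this
    linarith
  have hcard : a * y ≤ M.card := by
    refine le_trans ?_ hM3
    have h1 : (y2 / 2) ^ (kap - 1) ≤ (Real.log V) ^ (kap - 1) :=
      Real.rpow_le_rpow (by linarith) hlogV (by linarith)
    have h2 : (1 / 2 : ℝ) * y2 ^ (kap - 1) ≤ (y2 / 2) ^ (kap - 1) := by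
      have e : y2 / 2 = (1 / 2) * y2 := by ring
      rw [e, Real.mul_rpow (by norm_num) hy20.le]
      apply mul_le_mul_of_nonneg_right _ (Real.rpow_nonneg hy20.le _)
      calc (1 / 2 : ℝ) = (1 / 2 : ℝ) ^ (1 : ℝ) := (Real.rpow_one _).symm
        _ ≤ _ := Real.rpow_le_rpow_of_exponent_ge (by norm_num) (by norm_num) (by linarith)
    have h3 : c₁ * V * (1 / 2 * y2 ^ (kap - 1)) ≤ c₁ * V * (Real.log V) ^ (kap - 1) :=
      mul_le_mul_of_nonneg_left (h2.trans h1) (by positivity)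
    refine le_trans (le_of_eq ?_) h3
    have h4 : y2 ^ (-(kap - 1)) * y2 ^ (kap - 1) = 1 := by
      rw [← Real.rpow_add hy20]
      simp
    calc a * y = c₁ * (B * y) * (1 / 2) := by rw [hB]; field_simp
      _ = c₁ * (B * y) * (1 / 2) * (y2 ^ (-(kap - 1)) * y2 ^ (kap - 1)) := by rw [h4, mul_one]
      _ = _ := by rw [hVdef]; ring
  set m : ℕ := ⌊a * y⌋₊ with hm
  have hmle : (m : ℝ) ≤ a * y := Nat.floor_le (by positivity)
  have hmge : a * y / 2 ≤ m := by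
    have h1 := Nat.lt_floor_add_one (a * y)
    have h2 : 4 ≤ a * y := by
      have := mul_le_mul_of_nonneg_left hya ha.le
      rwa [mul_div_cancel₀ _ ha.ne'] at this
    have h3 : a * y < (m : ℝ) + 1 := h1
    linarith
  have hmM : m ≤ M.card := by
    have : (m : ℝ) ≤ M.card := hmle.trans hcard
    exact_mod_cast this
  obtain ⟨M', hM'1, hM'2⟩ := Finset.exists_subset_card_eq hmM
  have hV2 : 1 ≤ ⌊V ^ 2⌋₊ := by
    apply Nat.le_floor
    push_cast
    nlinarith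
  refine ⟨⌊V ^ 2⌋₊, M', hV2, ?_, hM'1.trans hM1, ?_, ?_⟩
  · calc ((⌊V ^ 2⌋₊ : ℕ) : ℝ) ≤ V ^ 2 := Nat.floor_le (by positivity)
      _ ≤ (y ^ 2) ^ 2 := pow_le_pow_left₀ hV0.le hVup 2
      _ = y ^ 4 := by ring
  · rw [hM'2]
    exact hmle
  · have h1 : (m : ℝ) * V ^ (-(3 / 4) : ℝ) ≤ ∑ K ∈ M', (gr K : ℝ) * (K : ℝ) ^ (-(3 / 4) : ℝ) := by
      rw [← hM'2, ← nsmul_eq_mul]
      exact Finset.card_nsmul_le_sum _ _ _ fun K hK => hM2 K (hM'1 hK)
    refine le_trans ?_ h1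
    have h2 : V ^ (-(3 / 4) : ℝ) = B ^ (-(3 / 4) : ℝ) * y ^ (-(3 / 4) : ℝ) * y2 ^ (3 / 4 * (kap - 1)) := by
      rw [hVdef, Real.mul_rpow (by positivity) hp0.le, Real.mul_rpow hB0.le hy0.le,
        ← Real.rpow_mul hy20.le]
      congr 2
      ring
    have h3 : y * y ^ (-(3 / 4) : ℝ) = y ^ (1 / 4 : ℝ) := by
      nth_rewrite 1 [← Real.rpow_one y]
      rw [← Real.rpow_add hy0]
      norm_num
    calc a / 2 * B ^ (-(3 / 4) : ℝ) * gn Y
        = a * y / 2 * V ^ (-(3 / 4) : ℝ) := by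
          rw [h2, gn, ← hy, ← hy2, ← h3]; ring
      _ ≤ m * V ^ (-(3 / 4) : ℝ) := mul_le_mul_of_nonneg_right hmge (Real.rpow_nonneg hV0.le _)

/-- large negative values in every interval `[X, X Y]` -/
theorem final_uniform_riesz : ∃ c : ℝ, 0 < c ∧ ∃ Y₀ : ℝ, ∀ X Y : ℝ, 2 ≤ X → Y₀ ≤ Y →
    ∃ R : ℝ, X ≤ R ∧ R ≤ X * Y ∧ Pe R ≤ -(c * √R * gn Y) := by
  obtain ⟨c₁, C, hc₁, hC, hana⟩ := analytic_riesz
  obtain ⟨c₂, hc₂, Y₁, hfreq⟩ := freq_set (a := 1 / 8) (by norm_num)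
  have t1 : Tendsto Real.log atTop atTop := Real.tendsto_log_atTop
  have e1 := t1.eventually_ge_atTop (1000 : ℝ)
  have e2 := tendsto_gn.eventually_ge_atTop (2 * (3 * C) / (c₁ * c₂))
  obtain ⟨Y₀, hY₀⟩ := eventually_atTop.1 (e1.and (e2.and (eventually_ge_atTop (max Y₁ 100))))
  refine ⟨c₁ * c₂ / 2, by positivity, Y₀, ?_⟩
  intro X Y hX hY
  obtain ⟨f1, f2, f3⟩ := hY₀ Y hY
  have hY100 : 100 ≤ Y := (le_max_right _ _).trans f3
  have hY0 : 0 < Y := by linarith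
  obtain ⟨N, M, hN1, hN2, hM1, hM2, hM3⟩ := hfreq Y ((le_max_left _ _).trans f3)
  set y := Real.log Y with hy
  have hYexp : Y = Real.exp y := (Real.exp_log hY0).symm
  -- the length
  set L : ℕ := ⌊√Y / 2⌋₊ with hL
  have hsY : √Y = Real.exp (y / 2) := by
    rw [hYexp, Real.sqrt_eq_rpow, ← Real.exp_mul]; congr 1; ring
  have hsY10 : 10 ≤ √Y := Real.le_sqrt_of_sq_le (by norm_num; linarith)
  have hL1 : (L : ℝ) ≤ √Y / 2 := Nat.floor_le (by positivity)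
  have hL2 : √Y / 4 ≤ L := by
    have := Nat.lt_floor_add_one (√Y / 2)
    have h3 : √Y / 2 < (L : ℝ) + 1 := this
    linarith
  have hL3 : 2 ≤ L := by
    have : (2 : ℝ) ≤ L := by linarith
    exact_mod_cast this
  have hsq : √Y * √Y = Y := Real.mul_self_sqrt hY0.le
  -- `√L ≥ exp (y / 4) / 2`
  have hsL : Real.exp (y / 4) / 2 ≤ √(L : ℝ) := by
    apply Real.le_sqrt_of_sq_le
    rw [div_pow, ← Real.exp_nat_mul]
    have : ((2 : ℕ) : ℝ) * (y / 4) = y / 2 := by push_cast; ring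
    rw [this, ← hsY]
    linarith
  have h2m : (2 : ℝ) ^ M.card ≤ Real.exp (y / 8) := by
    rw [← Real.rpow_natCast, Real.rpow_def_of_pos (by norm_num)]
    apply Real.exp_le_exp.mpr
    have h1 := Real.log_two_lt_d9
    have h2 : 0 < Real.log 2 := Real.log_pos (by norm_num)
    have h3 : (0 : ℝ) ≤ M.card := Nat.cast_nonneg _
    nlinarith
  have h8 : Real.exp (y / 4) = Real.exp (y / 8) * Real.exp (y / 8) := by
    rw [← Real.exp_add]; congr 1; ring
  have h9 : y / 8 + (y / 8) ^ 2 / 2 ≤ Real.exp (y / 8) := by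
    have := Real.quadratic_le_exp_of_nonneg (show 0 ≤ y / 8 by linarith)
    linarith
  have hE : 2 * y ≤ Real.exp (y / 8) := by nlinarith
  have hcond : 96 * 2 ^ M.card ≤ √(L : ℝ) := by
    refine le_trans ?_ hsL
    rw [h8]
    have : 0 < Real.exp (y / 8) := Real.exp_pos _
    nlinarith
  obtain ⟨R, hR1, hR2, hR3⟩ := hana N L M X hN1 hL3 hM1 hX hcond
  refine ⟨R, hR1, hR2.trans ?_, hR3.trans ?_⟩
  · have : (L : ℝ) ^ 2 ≤ (√Y / 2) ^ 2 := pow_le_pow_left₀ (Nat.cast_nonneg _) hL1 2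
    have h10 : (√Y / 2) ^ 2 = Y / 4 := by rw [div_pow, sq, hsq]; norm_num
    rw [h10] at this
    have hX0 : 0 < X := by linarith
    nlinarith
  · have hN4 : (N : ℝ) ^ (1 / 4 : ℝ) ≤ y := by
      calc (N : ℝ) ^ (1 / 4 : ℝ) ≤ (y ^ 4) ^ (1 / 4 : ℝ) :=
            Real.rpow_le_rpow (Nat.cast_nonneg _) hN2 (by norm_num)
        _ = y := by
          rw [← Real.rpow_natCast, ← Real.rpow_mul (by linarith)]
          norm_num
    have hsL0 : 0 < √(L : ℝ) := lt_of_lt_of_le (by positivity) hsL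
    have h11 : C * 2 ^ M.card * (N : ℝ) ^ (1 / 4 : ℝ) / √L ≤ 2 * C := by
      rw [div_le_iff₀ hsL0]
      have h12 : 2 ^ M.card * (N : ℝ) ^ (1 / 4 : ℝ) ≤ Real.exp (y / 8) * y :=
        mul_le_mul h2m hN4 (Real.rpow_nonneg (Nat.cast_nonneg _) _) (Real.exp_pos _).le
      have h13 : Real.exp (y / 8) * y ≤ 2 * √L := by
        have h14 : Real.exp (y / 8) * y ≤ Real.exp (y / 8) * Real.exp (y / 8) := by
          apply mul_le_mul_of_nonneg_left _ (Real.exp_pos _).le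
          linarith
        rw [h8] at hsL
        have : 0 < Real.exp (y / 8) * Real.exp (y / 8) := by positivity
        linarith
      calc C * 2 ^ M.card * (N : ℝ) ^ (1 / 4 : ℝ) = C * (2 ^ M.card * (N : ℝ) ^ (1 / 4 : ℝ)) := by ring
        _ ≤ C * (2 * √L) := mul_le_mul_of_nonneg_left (h12.trans h13) hC.le
        _ = _ := by ring
    have h15 : 3 * C ≤ c₁ * c₂ / 2 * gn Y := by
      rw [div_le_iff₀ (by positivity)] at f2
      linarith
    have h16 : C + C * 2 ^ M.card * (N : ℝ) ^ (1 / 4 : ℝ) / √L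
        - c₁ * ∑ K ∈ M, (gr K : ℝ) * (K : ℝ) ^ (-(3 / 4) : ℝ) ≤ -(c₁ * c₂ / 2 * gn Y) := by
      have h17 := mul_le_mul_of_nonneg_left hM3 hc₁.le
      linarith
    calc √R * (C + C * 2 ^ M.card * (N : ℝ) ^ (1 / 4 : ℝ) / √L
        - c₁ * ∑ K ∈ M, (gr K : ℝ) * (K : ℝ) ^ (-(3 / 4) : ℝ))
        ≤ √R * (-(c₁ * c₂ / 2 * gn Y)) := mul_le_mul_of_nonneg_left h16 (Real.sqrt_nonneg _)
      _ = _ := by ring

end

end Pool.Agent.Helper22.RZ
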