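import Mathlib
import Pool.Agent.Helper22.RZ.Final
import Pool.Agent.Helper53.OM.Prog

/-!
# Large negative values along arithmetic progressions
-/

open Filter
open scoped Real Topology

namespace Pool.Agent.Helper22.RZ

open Pool.Agent.Helper22.GC Pool.Agent.Helper53.OM

noncomputable section

/-- lower bound for the smoothed series at a point from the error term at the same point -/
lemma gI_lower_pt : ∃ C : ℝ, 0 < C ∧ ∀ (δ β R : ℝ), 0 < δ → δ ≤ 1 / 2 → 2 ≤ R →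
    δ * R ^ (3 / 5 : ℝ) ≤ 1 → β * √R ≤ Pe R → β - C ≤ gI δ R := by
  obtain ⟨C₁, hC₁, hgap⟩ := F_gap
  obtain ⟨C₂, hC₂, happ⟩ := gI_approx
  refine ⟨C₁ + C₂, by linarith, ?_⟩
  intro δ β R hδ hδ' hR hδR hP
  have hR0 : 0 < R := by linarith
  have hsR : 0 < √R := Real.sqrt_pos.mpr hR0
  have hsR1 : 1 ≤ √R := by rw [Real.one_le_sqrt]; linarith
  have h1 := hgap δ R hδ hδ' hR hδR
  have h2 := F_le_Sm (R := R - 2 * δ) (by linarith) hδ hδ'
  rw [sub_add_cancel] at h2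
  have h3 := (abs_le.mp (happ δ R hδ hδ' hR0)).2
  rw [Pe] at hP
  have h5 : C₂ / √R ≤ C₂ * √R := by
    rw [div_le_iff₀ hsR, mul_assoc]
    exact le_mul_of_one_le_right hC₂.le (by nlinarith)
  have h6 : (β - (C₁ + C₂)) * √R ≤ gI δ R * √R := by
    have : (β - (C₁ + C₂)) * √R = β * √R - C₁ * √R - C₂ * √R := by ring
    rw [this]
    linarith
  exact le_of_mul_le_mul_right h6 hsR

/-- the sum of the smoothed coefficients -/
lemma tsum_aK_le {δ : ℝ} (hδ : 0 < δ) {N : ℕ} (hN : 1 ≤ N) (h : 1 / δ ^ 2 ≤ 2 * N) :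
    ∑' K, aK δ K ≤ 90 * (N : ℝ) ^ (1 / 4 : ℝ) := by
  refine (summable_of_sum_Icc (aK_nonneg δ) (aK_zero δ) (c := 90 * (N : ℝ) ^ (1 / 4 : ℝ)) ?_).2
  intro T
  refine le_trans (Finset.sum_le_sum fun K hK => ?_) (sum_gr_phN hN T)
  rw [Finset.mem_Icc] at hK
  exact aK_le hδ h hK.1

/-- the analytic part for the multiples of `x` -/
theorem prog_riesz : ∃ c C : ℝ, 0 < c ∧ 0 < C ∧ ∀ (N L T : ℕ) (M : Finset ℕ) (x Y : ℝ),
    2 ≤ L → L ≤ T → (1 - 1 / (L : ℝ)) ^ (T + 1) * L ≤ 1 → M ⊆ Finset.Icc 1 N →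
    (N : ℝ) ≤ √Y → 1000000 ≤ Y → 2 ≤ x → T * x ≤ Y → 96 * 2 ^ M.card ≤ √(L : ℝ) →
    ∃ l : ℕ, 1 ≤ l ∧ l ≤ T ∧
      Pe (l * x) ≤ √(l * x) * (C + C * 2 ^ M.card * Y ^ (3 / 10 : ℝ) / √L
        - c * ∑ K ∈ M, (gr K : ℝ) * (K : ℝ) ^ (-(3 / 4) : ℝ)) := by
  obtain ⟨C1, hC1, hlow⟩ := gI_lower_pt
  refine ⟨1 / 80, C1 + 9000, by norm_num, by linarith, ?_⟩
  intro N L T M x Y hL hLT hr hM hNY hY hx hTY hML
  have hLr : (2 : ℝ) ≤ L := by exact_mod_cast hL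
  have hsL : 0 < √(L : ℝ) := Real.sqrt_pos.mpr (by linarith)
  have hπ := Real.pi_pos
  have hY0 : 0 < Y := by linarith
  set S : ℝ := ∑ K ∈ M, (gr K : ℝ) * (K : ℝ) ^ (-(3 / 4) : ℝ) with hS
  set Q : ℝ := Y ^ (3 / 10 : ℝ) with hQ
  have hQ0 : 0 < Q := Real.rpow_pos_of_pos hY0 _
  have hS0 : 0 ≤ S := Finset.sum_nonneg fun K _ =>
    mul_nonneg (Nat.cast_nonneg _) (Real.rpow_nonneg (Nat.cast_nonneg K) _)
  by_contra hcon
  push Not at hcon
  set β : ℝ := (C1 + 9000) + (C1 + 9000) * 2 ^ M.card * Q / √L - 1 / 80 * S with hβ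
  -- choose `δ`
  obtain ⟨δ, hδ⟩ : ∃ δ : ℝ, δ = Y ^ (-(3 / 5) : ℝ) := ⟨_, rfl⟩
  have hδ0 : 0 < δ := by rw [hδ]; exact Real.rpow_pos_of_pos hY0 _
  have hYs : 1000 ≤ √Y := Real.le_sqrt_of_sq_le (by norm_num; linarith)
  have hδs : δ ≤ 1 / √Y := by
    rw [hδ, Real.sqrt_eq_rpow, one_div, ← Real.rpow_neg hY0.le]
    exact Real.rpow_le_rpow_of_exponent_le (by linarith) (by norm_num)
  have hδ2 : δ ≤ 1 / 2 := by
    refine hδs.trans ?_
    apply one_div_le_one_div_of_le (by norm_num)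
    linarith
  have h2 : ∀ l ∈ Finset.Icc 1 T, β - C1 ≤ Gs (aK δ) (l * x) := by
    intro l hl
    rw [Finset.mem_Icc] at hl
    have hl1 : (1 : ℝ) ≤ l := by exact_mod_cast hl.1
    have hl2 : (l : ℝ) ≤ T := by exact_mod_cast hl.2
    have hlx : 2 ≤ l * x := by nlinarith
    have hlY : l * x ≤ Y := (mul_le_mul_of_nonneg_right hl2 (by linarith)).trans hTY
    have h3 := hlow δ β (l * x) hδ0 hδ2 hlx (by
      calc δ * (l * x) ^ (3 / 5 : ℝ) ≤ δ * Y ^ (3 / 5 : ℝ) := by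
            apply mul_le_mul_of_nonneg_left _ hδ0.le
            exact Real.rpow_le_rpow (by linarith) hlY (by norm_num)
        _ = 1 := by
            rw [hδ, ← Real.rpow_add hY0]; norm_num) (by
      have := hcon l hl.1 hl.2
      rw [mul_comm]
      exact this.le)
    exact h3
  -- the sum of the coefficients
  set N' : ℕ := ⌈Y ^ (6 / 5 : ℝ)⌉₊ with hN'
  have hYe : 1 ≤ Y ^ (6 / 5 : ℝ) := Real.one_le_rpow (by linarith) (by norm_num)
  have hN'1 : Y ^ (6 / 5 : ℝ) ≤ N' := Nat.le_ceil _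
  have hN'2 : (N' : ℝ) ≤ 2 * Y ^ (6 / 5 : ℝ) := by
    have := Nat.ceil_lt_add_one (show 0 ≤ Y ^ (6 / 5 : ℝ) by linarith)
    have h3 : (N' : ℝ) < Y ^ (6 / 5 : ℝ) + 1 := this
    linarith
  have hN'3 : 1 ≤ N' := by
    have : (1 : ℝ) ≤ N' := hYe.trans hN'1
    exact_mod_cast this
  have hδsq : 1 / δ ^ 2 = Y ^ (6 / 5 : ℝ) := by
    rw [hδ, ← Real.rpow_natCast, ← Real.rpow_mul hY0.le, one_div, ← Real.rpow_neg hY0.le]
    norm_num
  have hbt := tsum_aK_le hδ0 hN'3 (by rw [hδsq]; linarith)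
  have hbt2 : ∑' K, aK δ K ≤ 180 * Q := by
    refine hbt.trans ?_
    have h3 : (N' : ℝ) ^ (1 / 4 : ℝ) ≤ (2 * Y ^ (6 / 5 : ℝ)) ^ (1 / 4 : ℝ) :=
      Real.rpow_le_rpow (Nat.cast_nonneg _) hN'2 (by norm_num)
    have h4 : (2 * Y ^ (6 / 5 : ℝ)) ^ (1 / 4 : ℝ) = 2 ^ (1 / 4 : ℝ) * Q := by
      rw [Real.mul_rpow (by norm_num) (by linarith), ← Real.rpow_mul hY0.le, hQ]
      norm_num
    have h5 : (2 : ℝ) ^ (1 / 4 : ℝ) ≤ 2 := by
      calc (2 : ℝ) ^ (1 / 4 : ℝ) ≤ 2 ^ (1 : ℝ) :=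
            Real.rpow_le_rpow_of_exponent_le (by norm_num) (by norm_num)
        _ = 2 := Real.rpow_one 2
    have h6 : (N' : ℝ) ^ (1 / 4 : ℝ) ≤ 2 * Q := by
      rw [h4] at h3
      exact h3.trans (mul_le_mul_of_nonneg_right h5 hQ0.le)
    linarith
  obtain ⟨h0, _⟩ := rL hL
  have h3 := core_gen (aK_nonneg δ) (summable_aK hδ0) (w := wr (1 - 1 / L)) (wr_nonneg h0) (T := T)
    (A := 2) (W := √L / 16) (B := 180 * Q) (by norm_num) (fun θ => TT_lower hL hr θ)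
    (TT_weight hL hLT) hbt2 (M := M) (by linarith) h2
  have h5 : 1 / 2 * S ≤ ∑ K ∈ M, aK δ K := by
    rw [hS, Finset.mul_sum]
    refine Finset.sum_le_sum fun K hK => ?_
    have hK1 := Finset.mem_Icc.mp (hM hK)
    have hK0 : (0 : ℝ) < K := by exact_mod_cast hK1.1
    have hKY : (K : ℝ) ≤ √Y := by
      have : (K : ℝ) ≤ N := by exact_mod_cast hK1.2
      exact this.trans hNY
    have hp : 0 ≤ (K : ℝ) ^ (-(3 / 4) : ℝ) := Real.rpow_nonneg hK0.le _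
    have hgr : (0 : ℝ) ≤ gr K := Nat.cast_nonneg _
    have h6 := aw_lower hδ0 K
    -- `2 π δ √K ≤ 1/2`
    have h7 : 2 * π * δ * √K ≤ 1 / 2 := by
      have hsK : √(K : ℝ) ≤ √(√Y) := Real.sqrt_le_sqrt hKY
      have hss : √(√Y) * √(√Y) = √Y := Real.mul_self_sqrt (Real.sqrt_nonneg _)
      have hss0 : 0 < √(√Y) := Real.sqrt_pos.mpr (by linarith)
      have hq : δ * √K ≤ 1 / √(√Y) := by
        calc δ * √K ≤ 1 / √Y * √(√Y) := mul_le_mul hδs hsK (Real.sqrt_nonneg _) (by positivity)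
          _ = 1 / √(√Y) := by
            nth_rewrite 1 [← hss]
            field_simp
      have hss30 : 30 ≤ √(√Y) := Real.le_sqrt_of_sq_le (by norm_num; linarith)
      have hq2 : δ * √K ≤ 1 / 30 := hq.trans (one_div_le_one_div_of_le (by norm_num) hss30)
      have hpi4 := Real.pi_lt_four
      have hq0 : 0 ≤ δ * √K := by positivity
      calc 2 * π * δ * √K = 2 * π * (δ * √K) := by ring
        _ ≤ 2 * 4 * (1 / 30) := by
            apply mul_le_mul (by linarith) hq2 hq0 (by norm_num)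
        _ ≤ 1 / 2 := by norm_num
    have h8 : (gr K : ℝ) / 2 ≤ aw δ K := by
      have := mul_le_mul_of_nonneg_left h7 hgr
      linarith
    unfold aK
    calc 1 / 2 * (gr K * (K : ℝ) ^ (-(3 / 4) : ℝ)) = (gr K : ℝ) / 2 * (K : ℝ) ^ (-(3 / 4) : ℝ) := by ring
      _ ≤ _ := mul_le_mul_of_nonneg_right h8 hp
  have e1 : 2 * 2 ^ M.card * (180 * Q) / (√L / 16) = 5760 * (2 ^ M.card * Q / √L) := by
    field_simp
    ring
  have e2 : (C1 + 9000) * 2 ^ M.card * Q / √L = (C1 + 9000) * (2 ^ M.card * Q / √L) := by ring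
  have h6 : 0 ≤ C1 * (2 ^ M.card * Q / √L) := by positivity
  have h7 : 0 ≤ 2 ^ M.card * Q / √(L : ℝ) := by positivity
  rw [e1] at h3
  rw [e2] at hβ
  linarith

end

end Pool.Agent.Helper22.RZ
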