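import Mathlib
import Pool.Agent.Helper22.RZ.Final
import Pool.Agent.Helper22.RZ.Prog
import Pool.Agent.Helper53.OM.Prog
import Pool.Agent.Helper53.OM.Cnt2

/-!
# Many large negative values along arithmetic progressions
-/

open Filter
open scoped Real Topology

namespace Pool.Agent.Helper22.RZ

open Pool.Agent.Helper22.GC Pool.Agent.Helper53.OM

noncomputable section

/-- the error term at a point of the progression against the smoothed series at the same point -/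
lemma u_le_gI {α : ℝ} (hα : 0 < α) : ∃ C : ℝ, 0 < C ∧ ∀ (δ : ℝ) (n : ℕ), 0 < δ → δ ≤ 1 / 2 →
    2 * δ ≤ α → 1 ≤ n → δ * (α * n) ^ (3 / 5 : ℝ) ≤ 1 →
    Pe (α * n) / √(α * n) ≤ gI δ (α * n) + C := by
  obtain ⟨C₁, hC₁, hlow⟩ := gI_lower_pt
  obtain ⟨C₂, hC₂, happ⟩ := gI_approx
  refine ⟨C₁ + (F 2 / √α + 20 + C₂ / α), by positivity, ?_⟩
  intro δ n hδ hδ' hδα hn hδn
  have hn1 : (1 : ℝ) ≤ n := by exact_mod_cast hn
  have hαn : α ≤ α * n := by nlinarith
  have hR0 : 0 < α * n := by positivity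
  set R : ℝ := α * n with hR
  have hsR : 0 < √R := Real.sqrt_pos.mpr hR0
  have hsα : 0 < √α := Real.sqrt_pos.mpr hα
  have hsαR : √α ≤ √R := Real.sqrt_le_sqrt hαn
  have hpos : 0 ≤ (F 2 : ℝ) / √α + 20 + C₂ / α := by positivity
  rcases le_or_gt 2 R with h2 | h2
  · have h3 := hlow δ (Pe R / √R) R hδ hδ' h2 hδn (by rw [div_mul_cancel₀ _ hsR.ne'])
    linarith
  · have h3 := (abs_le.mp (happ δ R hδ hδ' hR0)).2
    have h4 : (0 : ℝ) ≤ Sm δ R := by
      have h5 := F_le_Sm (R := R - 2 * δ) (by linarith) hδ hδ'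
      rw [sub_add_cancel] at h5
      exact (Nat.cast_nonneg _).trans h5
    -- lower bound for `gI`
    have h5 : -(20 + C₂ / α) ≤ gI δ R := by
      have h6 : -(π * R ^ 2) - C₂ / √R ≤ √R * gI δ R := by linarith
      have h7 : π * R ^ 2 ≤ 20 * √R := by
        have h8 : R ≤ 2 * √R := by
          have : √R * √R = R := Real.mul_self_sqrt hR0.le
          have h9 : √R ≤ 2 := by
            rw [Real.sqrt_le_left (by norm_num)]; linarith
          nlinarith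
        have hpi := Real.pi_lt_four
        have : π * R ^ 2 ≤ 4 * (2 * R) := by nlinarith
        nlinarith
      have h10 : C₂ / √R ≤ C₂ / α * √R := by
        rw [div_le_iff₀ hsR, div_mul_eq_mul_div, div_mul_eq_mul_div, le_div_iff₀ hα, mul_assoc,
          Real.mul_self_sqrt hR0.le]
        exact mul_le_mul_of_nonneg_left hαn hC₂.le
      have h11 : -(20 + C₂ / α) * √R ≤ gI δ R * √R := by
        have : -(20 + C₂ / α) * √R = -(20 * √R) - C₂ / α * √R := by ring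
        rw [this]
        linarith
      exact le_of_mul_le_mul_right h11 hsR
    have h12 : Pe R / √R ≤ F 2 / √α := by
      have h13 : Pe R ≤ F 2 := by
        rw [Pe]
        have h14 : (F R : ℝ) ≤ F 2 := by
          have : F R ≤ F 2 := by
            refine Set.ncard_le_ncard ?_ (cntSet_finite _ _ (by simp))
            intro v hv
            simp only [cntSet, Set.mem_ofPred_eq, Pi.zero_apply, zero_add] at hv ⊢
            nlinarith
          exact_mod_cast this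
        have : 0 ≤ π * R ^ 2 := by positivity
        linarith
      calc Pe R / √R ≤ F 2 / √R := div_le_div_of_nonneg_right h13 hsR.le
        _ ≤ F 2 / √α := div_le_div_of_nonneg_left (Nat.cast_nonneg _) hsα hsαR
    linarith

/-- the weighted sum of the error term is very negative -/
theorem riesz_prog {ε : ℝ} (hε : 0 < ε) (hε1 : ε ≤ 1 / 5) :
    ∃ c : ℝ, 0 < c ∧ ∀ α : ℝ, 0 < α → ∃ X₀ : ℝ, ∀ X : ℝ, X₀ ≤ X →
      ∃ w g : ℕ → ℝ, (∀ n, 0 ≤ w n) ∧
      (∀ n, 1 ≤ n → w n ^ 2 ≤ 1 / n) ∧ (∀ n, 0 ≤ g n) ∧ (∀ n, g n ≤ X ^ (ε / 4)) ∧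
      X ^ ((1 - ε) / 2) / 100 ≤ ∑ n ∈ Finset.Icc 1 ⌊X / α⌋₊, w n * g n ∧
      ∑ n ∈ Finset.Icc 1 ⌊X / α⌋₊, w n * g n * (Pe (α * n) / √(α * n)) ≤
        -(2 * (c * gn X) * ∑ n ∈ Finset.Icc 1 ⌊X / α⌋₊, w n * g n) := by
  obtain ⟨c₂, hc₂, Y₁, hfreq⟩ := freq_set (a := ε / 4) (by positivity)
  refine ⟨c₂ / 160, by positivity, fun α hα => ?_⟩
  obtain ⟨C₁, hC₁, hu⟩ := u_le_gI hα
  -- the thresholds
  have t0 : Tendsto (fun X : ℝ => X ^ (ε / 4)) atTop atTop := tendsto_rpow_atTop (by positivity)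
  have t1 : Tendsto (fun X : ℝ => X ^ (1 / 100 : ℝ)) atTop atTop := tendsto_rpow_atTop (by norm_num)
  have t2 := tendsto_gn.eventually_ge_atTop (160 * (C₁ + 1) / c₂)
  have t3 : ∀ᶠ X : ℝ in atTop, X ^ (1 - ε) * Real.exp (-(X ^ ε / α)) ≤ 1 := by
    have h1 : Tendsto (fun X : ℝ => X ^ ε / α) atTop atTop :=
      (tendsto_rpow_atTop hε).atTop_div_const hα
    have h2 : Tendsto (fun t : ℝ => t ^ ((1 - ε) / ε) * Real.exp (-(1 : ℝ) * t)) atTop (𝓝 0) :=
      tendsto_rpow_mul_exp_neg_mul_atTop_nhds_zero _ _ one_pos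
    have h3 := (h2.comp h1).const_mul (α ^ ((1 - ε) / ε))
    rw [mul_zero] at h3
    have h4 := h3.eventually_le_const (u := 1) one_pos
    filter_upwards [h4, eventually_gt_atTop (0 : ℝ)] with X hX hX0
    refine le_trans (le_of_eq ?_) hX
    simp only [Function.comp]
    have h5 : (X ^ ε / α) ^ ((1 - ε) / ε) = X ^ (1 - ε) / α ^ ((1 - ε) / ε) := by
      rw [Real.div_rpow (Real.rpow_nonneg hX0.le _) hα.le, ← Real.rpow_mul hX0.le]
      congr 2
      field_simp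
    rw [h5]
    have : (0 : ℝ) < α ^ ((1 - ε) / ε) := Real.rpow_pos_of_pos hα _
    field_simp
  have t4 : ∀ᶠ X : ℝ in atTop, X ^ (1 - ε) + 1 ≤ X / α := by
    have h1 : Tendsto (fun X : ℝ => X ^ ε / α) atTop atTop :=
      (tendsto_rpow_atTop hε).atTop_div_const hα
    filter_upwards [h1.eventually_ge_atTop (2 : ℝ), eventually_ge_atTop (1 : ℝ)] with X hX hX1
    have hX0 : 0 < X := by linarith
    have h2 : X / α = X ^ (1 - ε) * (X ^ ε / α) := by
      rw [← mul_div_assoc, ← Real.rpow_add hX0]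
      simp
    rw [h2]
    have h3 : 1 ≤ X ^ (1 - ε) := Real.one_le_rpow hX1 (by linarith)
    nlinarith
  have t5 : ∀ᶠ X : ℝ in atTop, (Real.log X) ^ 4 ≤ √X := by
    have h1 := (isLittleO_log_rpow_atTop (show (0 : ℝ) < 1 / 8 by norm_num)).bound
      (show (0 : ℝ) < 1 by norm_num)
    filter_upwards [h1, eventually_ge_atTop (1 : ℝ)] with X hX hX1
    have hX0 : 0 < X := by linarith
    rw [one_mul, Real.norm_of_nonneg (Real.log_nonneg hX1),
      Real.norm_of_nonneg (Real.rpow_nonneg hX0.le _)] at hX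
    calc (Real.log X) ^ 4 ≤ (X ^ (1 / 8 : ℝ)) ^ 4 := pow_le_pow_left₀ (Real.log_nonneg hX1) hX 4
      _ = √X := by
        rw [← Real.rpow_natCast, ← Real.rpow_mul hX0.le, Real.sqrt_eq_rpow]
        norm_num
  have t6 : Tendsto (fun X : ℝ => X ^ (1 / 20 : ℝ)) atTop atTop := tendsto_rpow_atTop (by norm_num)
  have t7 : Tendsto (fun X : ℝ => X ^ (3 / 5 : ℝ)) atTop atTop := tendsto_rpow_atTop (by norm_num)
  obtain ⟨X₀, hX₀⟩ := eventually_atTop.1 (t2.and (t3.and (t4.and (t5.and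
    ((t6.eventually_ge_atTop (100000 : ℝ)).and ((t7.eventually_ge_atTop (2 / α)).and
      (eventually_ge_atTop (max Y₁ 1000000))))))))
  refine ⟨X₀, ?_⟩
  intro X hX
  obtain ⟨f2, f3, f4, f5, f6, f7, f8⟩ := hX₀ X hX
  have hX6 : (1000000 : ℝ) ≤ X := (le_max_right _ _).trans f8
  have hX0 : 0 < X := by linarith
  have hX1 : 1 ≤ X := by linarith
  obtain ⟨N, M, hN1, hN2, hM1, hM2, hM3⟩ := hfreq X ((le_max_left _ _).trans f8)
  set T : ℕ := ⌊X / α⌋₊ with hT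
  set L : ℕ := ⌊X ^ (1 - ε)⌋₊ with hL
  have hP0 : 0 < X ^ (1 - ε) := Real.rpow_pos_of_pos hX0 _
  have hP4 : 4 ≤ X ^ (1 - ε) := by
    have h1 : X ^ (1 / 20 : ℝ) ≤ X ^ (1 - ε) := Real.rpow_le_rpow_of_exponent_le hX1 (by linarith)
    linarith
  have hL1 : (L : ℝ) ≤ X ^ (1 - ε) := Nat.floor_le hP0.le
  have hL2 : X ^ (1 - ε) / 2 ≤ L := by
    have h1 : X ^ (1 - ε) < (L : ℝ) + 1 := Nat.lt_floor_add_one _
    linarith
  have hL3 : 2 ≤ L := by
    have : (2 : ℝ) ≤ L := by linarith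
    exact_mod_cast this
  have hL0 : (0 : ℝ) < L := by linarith
  have hXα : 0 ≤ X / α := by positivity
  have hT1 : (T : ℝ) ≤ X / α := Nat.floor_le hXα
  have hT2 : X / α ≤ (T : ℝ) + 1 := (Nat.lt_floor_add_one _).le
  have hLT : L ≤ T := by
    apply Nat.le_floor
    linarith
  obtain ⟨h0, h1r⟩ := rL hL3
  -- the truncation
  have hr : (1 - 1 / (L : ℝ)) ^ (T + 1) * L ≤ 1 := by
    have h11 : (1 - 1 / (L : ℝ)) ≤ Real.exp (-(1 / (L : ℝ))) := by
      have := Real.add_one_le_exp (-(1 / (L : ℝ)))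
      linarith
    have h12 : (1 - 1 / (L : ℝ)) ^ (T + 1) ≤ Real.exp (-(X ^ ε / α)) := by
      calc (1 - 1 / (L : ℝ)) ^ (T + 1) ≤ (Real.exp (-(1 / (L : ℝ)))) ^ (T + 1) :=
            pow_le_pow_left₀ h0 h11 _
        _ = Real.exp (-(((T : ℝ) + 1) / L)) := by
            rw [← Real.exp_nat_mul]
            congr 1
            push_cast
            ring
        _ ≤ _ := by
            apply Real.exp_le_exp.mpr
            apply neg_le_neg
            rw [le_div_iff₀ hL0]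
            calc X ^ ε / α * L ≤ X ^ ε / α * X ^ (1 - ε) :=
                  mul_le_mul_of_nonneg_left hL1 (by positivity)
              _ = X / α := by
                  rw [div_mul_eq_mul_div, ← Real.rpow_add hX0]
                  simp
              _ ≤ _ := hT2
    calc (1 - 1 / (L : ℝ)) ^ (T + 1) * L ≤ Real.exp (-(X ^ ε / α)) * X ^ (1 - ε) :=
          mul_le_mul h12 hL1 hL0.le (Real.exp_pos _).le
      _ ≤ 1 := by rw [mul_comm]; exact f3
  -- `2 ^ |M| ≤ X ^ (ε / 4)`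
  have h2m : (2 : ℝ) ^ M.card ≤ X ^ (ε / 4) := by
    rw [← Real.rpow_natCast, Real.rpow_def_of_pos (by norm_num), Real.rpow_def_of_pos hX0]
    apply Real.exp_le_exp.mpr
    have h1 := Real.log_two_lt_d9
    have h2 : 0 < Real.log 2 := Real.log_pos (by norm_num)
    have h3 : (0 : ℝ) ≤ M.card := Nat.cast_nonneg _
    nlinarith
  -- `√L`
  have hsL : X ^ ((1 - ε) / 2) / 2 ≤ √(L : ℝ) := by
    apply Real.le_sqrt_of_sq_le
    have : (X ^ ((1 - ε) / 2) / 2) ^ 2 = X ^ (1 - ε) / 4 := by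
      rw [div_pow, ← Real.rpow_natCast, ← Real.rpow_mul hX0.le]
      norm_num
    rw [this]
    linarith
  have hsL0 : 0 < √(L : ℝ) := Real.sqrt_pos.mpr hL0
  have hcond : 96 * 2 ^ M.card ≤ √(L : ℝ) := by
    have h1 : X ^ ((1 - ε) / 2) = X ^ (ε / 4) * X ^ ((1 - ε) / 2 - ε / 4) := by
      rw [← Real.rpow_add hX0]; congr 1; ring
    have h2 : X ^ (1 / 20 : ℝ) ≤ X ^ ((1 - ε) / 2 - ε / 4) :=
      Real.rpow_le_rpow_of_exponent_le hX1 (by linarith)
    have h3 : 0 < X ^ (ε / 4) := Real.rpow_pos_of_pos hX0 _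
    rw [h1] at hsL
    have h4 : X ^ (ε / 4) * 100000 ≤ X ^ (ε / 4) * X ^ ((1 - ε) / 2 - ε / 4) :=
      mul_le_mul_of_nonneg_left (f6.trans h2) h3.le
    linarith
  -- the smoothing
  obtain ⟨δ, hδ⟩ : ∃ δ : ℝ, δ = X ^ (-(3 / 5) : ℝ) := ⟨_, rfl⟩
  have hδ0 : 0 < δ := by rw [hδ]; exact Real.rpow_pos_of_pos hX0 _
  have hYs : 1000 ≤ √X := Real.le_sqrt_of_sq_le (by norm_num; linarith)
  have hδs : δ ≤ 1 / √X := by
    rw [hδ, Real.sqrt_eq_rpow, one_div, ← Real.rpow_neg hX0.le]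
    exact Real.rpow_le_rpow_of_exponent_le hX1 (by norm_num)
  have hδ2 : δ ≤ 1 / 2 := by
    refine hδs.trans ?_
    apply one_div_le_one_div_of_le (by norm_num)
    linarith
  have hδα : 2 * δ ≤ α := by
    rw [hδ, Real.rpow_neg hX0.le]
    have h35 : 0 < X ^ (3 / 5 : ℝ) := Real.rpow_pos_of_pos hX0 _
    rw [div_le_iff₀ hα] at f7
    rw [← div_eq_mul_inv, div_le_iff₀ h35]
    linarith
  have hu' : ∀ n ∈ Finset.Icc 1 T, Pe (α * n) / √(α * n) ≤ Gs (aK δ) (n * α) + C₁ := by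
    intro n hn
    rw [Finset.mem_Icc] at hn
    have hn2 : (n : ℝ) ≤ X / α := by
      have : (n : ℝ) ≤ T := by exact_mod_cast hn.2
      exact this.trans hT1
    have hnX : α * n ≤ X := by
      rw [le_div_iff₀ hα] at hn2
      linarith
    have h1 := hu δ n hδ0 hδ2 hδα hn.1 (by
      calc δ * (α * n) ^ (3 / 5 : ℝ) ≤ δ * X ^ (3 / 5 : ℝ) := by
            apply mul_le_mul_of_nonneg_left _ hδ0.le
            exact Real.rpow_le_rpow (by positivity) hnX (by norm_num)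
        _ = 1 := by
            rw [hδ, ← Real.rpow_add hX0]; norm_num)
    rw [mul_comm (n : ℝ) α]
    exact h1
  -- the sum of the coefficients
  set Q : ℝ := X ^ (3 / 10 : ℝ) with hQ
  have hQ0 : 0 < Q := Real.rpow_pos_of_pos hX0 _
  set N' : ℕ := ⌈X ^ (6 / 5 : ℝ)⌉₊ with hN'
  have hYe : 1 ≤ X ^ (6 / 5 : ℝ) := Real.one_le_rpow hX1 (by norm_num)
  have hN'1 : X ^ (6 / 5 : ℝ) ≤ N' := Nat.le_ceil _
  have hN'2 : (N' : ℝ) ≤ 2 * X ^ (6 / 5 : ℝ) := by
    have h3 : (N' : ℝ) < X ^ (6 / 5 : ℝ) + 1 := Nat.ceil_lt_add_one (by linarith)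
    linarith
  have hN'3 : 1 ≤ N' := by
    have : (1 : ℝ) ≤ N' := hYe.trans hN'1
    exact_mod_cast this
  have hδsq : 1 / δ ^ 2 = X ^ (6 / 5 : ℝ) := by
    rw [hδ, ← Real.rpow_natCast, ← Real.rpow_mul hX0.le, one_div, ← Real.rpow_neg hX0.le]
    norm_num
  have hbt2 : ∑' K, aK δ K ≤ 180 * Q := by
    refine (tsum_aK_le hδ0 hN'3 (by rw [hδsq]; linarith)).trans ?_
    have h3 : (N' : ℝ) ^ (1 / 4 : ℝ) ≤ (2 * X ^ (6 / 5 : ℝ)) ^ (1 / 4 : ℝ) :=
      Real.rpow_le_rpow (Nat.cast_nonneg _) hN'2 (by norm_num)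
    have h4 : (2 * X ^ (6 / 5 : ℝ)) ^ (1 / 4 : ℝ) = 2 ^ (1 / 4 : ℝ) * Q := by
      rw [Real.mul_rpow (by norm_num) (by linarith), ← Real.rpow_mul hX0.le, hQ]
      norm_num
    have h5 : (2 : ℝ) ^ (1 / 4 : ℝ) ≤ 2 := by
      calc (2 : ℝ) ^ (1 / 4 : ℝ) ≤ 2 ^ (1 : ℝ) :=
            Real.rpow_le_rpow_of_exponent_le (by norm_num) (by norm_num)
        _ = 2 := Real.rpow_one 2
    have h6 : (N' : ℝ) ^ (1 / 4 : ℝ) ≤ 2 * Q := by
      rw [h4] at h3
      exact h3.trans (mul_le_mul_of_nonneg_right h5 hQ0.le)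
    linarith
  obtain ⟨hV1, hV2⟩ := core_sum (aK_nonneg δ) (summable_aK hδ0) (w := wr (1 - 1 / L))
    (wr_nonneg h0) (T := T)
    (A := 2) (W := √L / 16) (B := 180 * Q) (by norm_num) (fun θ => TT_lower hL3 hr θ)
    (TT_weight hL3 hLT) hbt2 (M := M) (by linarith) α
  set t : ℕ → ℝ := fun K => √(K : ℝ) * α with ht
  set V : ℝ := Ww (wr (1 - 1 / L)) T M t with hV
  have hV0 : 0 < V := by linarith
  have hVlow : X ^ ((1 - ε) / 2) / 100 ≤ V := by
    have : 0 < X ^ ((1 - ε) / 2) := Real.rpow_pos_of_pos hX0 _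
    linarith
  refine ⟨wr (1 - 1 / L), rz M t, wr_nonneg h0, fun n hn => wr_sq_le h0 h1r.le hn, rz_nonneg M t,
    fun n => (rz_le M t n).trans h2m, hVlow, ?_⟩
  -- the error
  have herr : 2 * 2 ^ M.card * (180 * Q) / (√L / 16) ≤ 1 := by
    rw [div_le_one (by positivity)]
    have h1 : X ^ ((1 - ε) / 2) = X ^ (ε / 4) * Q * X ^ ((1 - ε) / 2 - ε / 4 - 3 / 10) := by
      rw [hQ, ← Real.rpow_add hX0, ← Real.rpow_add hX0]; congr 1; ring
    have h2 : X ^ (1 / 20 : ℝ) ≤ X ^ ((1 - ε) / 2 - ε / 4 - 3 / 10) :=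
      Real.rpow_le_rpow_of_exponent_le hX1 (by linarith)
    have h3 : 0 < X ^ (ε / 4) := Real.rpow_pos_of_pos hX0 _
    rw [h1] at hsL
    have h4 : X ^ (ε / 4) * Q * 100000 ≤ X ^ (ε / 4) * Q * X ^ ((1 - ε) / 2 - ε / 4 - 3 / 10) :=
      mul_le_mul_of_nonneg_left (f6.trans h2) (by positivity)
    have h5 : (2 : ℝ) ^ M.card * Q ≤ X ^ (ε / 4) * Q := mul_le_mul_of_nonneg_right h2m hQ0.le
    have h6 : 2 * (2 : ℝ) ^ M.card * (180 * Q) = 360 * (2 ^ M.card * Q) := by ring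
    rw [h6]
    linarith
  set S : ℝ := ∑ K ∈ M, (gr K : ℝ) * (K : ℝ) ^ (-(3 / 4) : ℝ) with hS
  have h5 : 1 / 2 * S ≤ ∑ K ∈ M, aK δ K := by
    rw [hS, Finset.mul_sum]
    refine Finset.sum_le_sum fun K hK => ?_
    have hK1 := Finset.mem_Icc.mp (hM1 hK)
    have hK0 : (0 : ℝ) < K := by exact_mod_cast hK1.1
    have hKY : (K : ℝ) ≤ √X := by
      have : (K : ℝ) ≤ N := by exact_mod_cast hK1.2
      exact this.trans (hN2.trans f5)
    have hp : 0 ≤ (K : ℝ) ^ (-(3 / 4) : ℝ) := Real.rpow_nonneg hK0.le _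
    have hgr : (0 : ℝ) ≤ gr K := Nat.cast_nonneg _
    have h6 := aw_lower hδ0 K
    have hπ := Real.pi_pos
    have h7 : 2 * π * δ * √K ≤ 1 / 2 := by
      have hsK : √(K : ℝ) ≤ √(√X) := Real.sqrt_le_sqrt hKY
      have hss : √(√X) * √(√X) = √X := Real.mul_self_sqrt (Real.sqrt_nonneg _)
      have hss0 : 0 < √(√X) := Real.sqrt_pos.mpr (by linarith)
      have hq : δ * √K ≤ 1 / √(√X) := by
        calc δ * √K ≤ 1 / √X * √(√X) := mul_le_mul hδs hsK (Real.sqrt_nonneg _) (by positivity)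
          _ = 1 / √(√X) := by
            nth_rewrite 1 [← hss]
            field_simp
      have hss30 : 30 ≤ √(√X) := Real.le_sqrt_of_sq_le (by norm_num; linarith)
      have hq2 : δ * √K ≤ 1 / 30 := hq.trans (one_div_le_one_div_of_le (by norm_num) hss30)
      have hpi4 := Real.pi_lt_four
      have hq0 : 0 ≤ δ * √K := by positivity
      calc 2 * π * δ * √K = 2 * π * (δ * √K) := by ring
        _ ≤ 2 * 4 * (1 / 30) := by
            apply mul_le_mul (by linarith) hq2 hq0 (by norm_num)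
        _ ≤ 1 / 2 := by norm_num
    have h8 : (gr K : ℝ) / 2 ≤ aw δ K := by
      have := mul_le_mul_of_nonneg_left h7 hgr
      linarith
    unfold aK
    calc 1 / 2 * (gr K * (K : ℝ) ^ (-(3 / 4) : ℝ)) = (gr K : ℝ) / 2 * (K : ℝ) ^ (-(3 / 4) : ℝ) := by ring
      _ ≤ _ := mul_le_mul_of_nonneg_right h8 hp
  have hwg : ∀ n, 0 ≤ wr (1 - 1 / (L : ℝ)) n * rz M t n := fun n =>
    mul_nonneg (wr_nonneg h0 n) (rz_nonneg M t n)
  have h9 : ∑ n ∈ Finset.Icc 1 T, wr (1 - 1 / (L : ℝ)) n * rz M t n * (Pe (α * n) / √(α * n)) ≤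
      ∑ n ∈ Finset.Icc 1 T, (wr (1 - 1 / (L : ℝ)) n * rz M t n) * Gs (aK δ) (n * α) + C₁ * V := by
    rw [hV, Ww, Finset.mul_sum, ← Finset.sum_add_distrib]
    refine Finset.sum_le_sum fun n hn => ?_
    have := mul_le_mul_of_nonneg_left (hu' n hn) (hwg n)
    linarith
  have h10 : ∑ n ∈ Finset.Icc 1 T, wr (1 - 1 / (L : ℝ)) n * rz M t n = V := rfl
  rw [h10]
  have h11 : C₁ + 1 ≤ c₂ / 160 * gn X := by
    rw [div_le_iff₀ hc₂] at f2
    linarith
  have h12 : (2 * 2 ^ M.card * (180 * Q) / (√L / 16) - 1 / 20 * ∑ K ∈ M, aK δ K) * V ≤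
      (1 - 1 / 40 * (c₂ * gn X)) * V := by
    apply mul_le_mul_of_nonneg_right _ hV0.le
    linarith
  have h13 : (1 - 1 / 40 * (c₂ * gn X)) * V + C₁ * V ≤ -(2 * (c₂ / 160 * gn X) * V) := by
    have : (1 - 1 / 40 * (c₂ * gn X) + C₁ + 2 * (c₂ / 160 * gn X)) * V ≤ 0 := by
      apply mul_nonpos_of_nonpos_of_nonneg _ hV0.le
      have hgn : 0 ≤ gn X := gn_nonneg (by linarith)
      have : 0 ≤ c₂ * gn X := by positivity
      linarith
    linarith
  linarith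

end

end Pool.Agent.Helper22.RZ
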