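import Mathlib
import Pool.Agent.Helper22.RZ.Dens

/-!
# Many large negative values along arithmetic progressions: the count
-/

open Filter
open scoped Real Topology

namespace Pool.Agent.Helper22.RZ

open Pool.Agent.Helper22.GC Pool.Agent.Helper53.OM

noncomputable section

lemma alg_id {U X A α D c : ℝ} (hα : α ≠ 0) (hD : D ≠ 0) :
    (U * X / α * D) * (c ^ 2 / (40000 * D) * A) = c ^ 2 / 40000 / α * (U * X * A) := by
  field_simp

/-- at least `X ^ (1 - ε)` of the points `α n` up to `X` have a very negative error term -/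
theorem dens {ε : ℝ} (hε : 0 < ε) :
    ∃ c : ℝ, 0 < c ∧ ∀ α : ℝ, 0 < α → ∃ X₀ : ℝ, ∀ X : ℝ, X₀ ≤ X →
      X ^ (1 - ε) ≤ Nat.card {n : ℕ // X ^ (1 - ε) ≤ α * n ∧ α * n ≤ X ∧
        Pe (α * n) ≤ -(c * √(α * n) * gn (α * n))} := by
  classical
  obtain ⟨e, he0, he1, he2⟩ : ∃ e : ℝ, 0 < e ∧ e ≤ 1 / 5 ∧ 4 * e ≤ ε :=
    ⟨min (ε / 4) (1 / 5), lt_min (by positivity) (by norm_num), min_le_right _ _, by
      have := min_le_left (ε / 4) (1 / 5)
      linarith⟩
  obtain ⟨c, hc, hprog⟩ := riesz_prog he0 he1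
  refine ⟨c / 2, by positivity, fun α hα => ?_⟩
  obtain ⟨X₁, hmain⟩ := hprog α hα
  obtain ⟨D, hD0, hD⟩ := mean_sq hα
  obtain ⟨Y₀, hY₀3, hcomp⟩ := gn_compare (k := 1) le_rfl
  -- the thresholds
  have t1 : ∀ᶠ X : ℝ in atTop, Real.log X ≤ X ^ (e / 4) := by
    have h1 := (isLittleO_log_rpow_atTop (show (0 : ℝ) < e / 4 by positivity)).bound
      (show (0 : ℝ) < 1 by norm_num)
    filter_upwards [h1, eventually_ge_atTop (1 : ℝ)] with X hX hX1
    have hX0 : 0 < X := by linarith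
    rwa [one_mul, Real.norm_of_nonneg (Real.log_nonneg hX1),
      Real.norm_of_nonneg (Real.rpow_nonneg hX0.le _)] at hX
  have t2 := tendsto_gn.eventually_ge_atTop (1 : ℝ)
  have t3 : Tendsto (fun X : ℝ => X ^ (e / 8)) atTop atTop := tendsto_rpow_atTop (by positivity)
  have t4 : Tendsto (fun X : ℝ => X ^ (e / 2)) atTop atTop := tendsto_rpow_atTop (by positivity)
  have t5 : Tendsto (fun X : ℝ => X ^ (2 * e)) atTop atTop := tendsto_rpow_atTop (by positivity)
  have t6 : Tendsto (fun X : ℝ => X ^ (1 - 2 * e)) atTop atTop := tendsto_rpow_atTop (by linarith)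
  obtain ⟨X₀, hX₀⟩ := eventually_atTop.1 (t1.and (t2.and
    ((t3.eventually_ge_atTop (200 * √(4 * D / α) / c)).and
    ((t4.eventually_ge_atTop (40000 * D / c ^ 2)).and
    ((t5.eventually_ge_atTop (max (2 / α) 2)).and
    ((t6.eventually_ge_atTop (max α 3)).and
      (eventually_ge_atTop (max (max X₁ Y₀) 3))))))))
  refine ⟨X₀, ?_⟩
  intro X hX
  obtain ⟨f1, f2, f3, f4, f5, f6, f7⟩ := hX₀ X hX
  have hX3 : (3 : ℝ) ≤ X := (le_max_right _ _).trans f7
  have hXX : X₁ ≤ X := (le_max_left X₁ Y₀).trans ((le_max_left _ _).trans f7)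
  have hXY : Y₀ ≤ X := (le_max_right X₁ Y₀).trans ((le_max_left _ _).trans f7)
  have hX0 : 0 < X := by linarith
  have hX1 : 1 ≤ X := by linarith
  obtain ⟨w, g, hw0, hw, hg0, hg, hV, hsum⟩ := hmain X hXX
  set T : ℕ := ⌊X / α⌋₊ with hT
  set V : ℝ := ∑ n ∈ Finset.Icc 1 T, w n * g n with hVdef
  set b : ℝ := c * gn X with hb
  have hbc : c ≤ b := by
    rw [hb]; nlinarith
  have hb0 : 0 ≤ b := by linarith
  set P : ℝ := X ^ (1 - 2 * e) with hP
  have hP0 : 0 < P := Real.rpow_pos_of_pos hX0 _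
  have hPα : α ≤ P := (le_max_left _ _).trans f6
  have hP3 : 3 ≤ P := (le_max_right _ _).trans f6
  set n₀ : ℕ := ⌈P / α⌉₊ with hn₀
  have hPX : X = P * X ^ (2 * e) := by
    rw [hP, ← Real.rpow_add hX0]
    simp
  have hn1 : P / α ≤ n₀ := Nat.le_ceil _
  have hPα1 : 1 ≤ P / α := by rw [le_div_iff₀ hα]; linarith
  have hn2 : (n₀ : ℝ) ≤ 2 * (P / α) := by
    have : (n₀ : ℝ) < P / α + 1 := Nat.ceil_lt_add_one (by linarith)
    linarith
  have hn01 : 1 ≤ n₀ := by
    have : (1 : ℝ) ≤ n₀ := hPα1.trans hn1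
    exact_mod_cast this
  have hn0pos : (0 : ℝ) < n₀ := by exact_mod_cast hn01
  have hXα : 0 ≤ X / α := by positivity
  have hT1 : (T : ℝ) ≤ X / α := Nat.floor_le hXα
  have hX2e : 2 / α ≤ X ^ (2 * e) := (le_max_left _ _).trans f5
  have hn0X : (n₀ : ℝ) ≤ X := by
    refine hn2.trans ?_
    calc 2 * (P / α) = P * (2 / α) := by ring
      _ ≤ P * X ^ (2 * e) := mul_le_mul_of_nonneg_left hX2e hP0.le
      _ = X := hPX.symm
  have hn0T : n₀ ≤ T := by
    apply Nat.le_floor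
    refine hn2.trans ?_
    have h1 : 2 ≤ X ^ (2 * e) := (le_max_right _ _).trans f5
    rw [mul_div_assoc', div_le_div_iff_of_pos_right hα]
    calc 2 * P = P * 2 := mul_comm _ _
      _ ≤ P * X ^ (2 * e) := mul_le_mul_of_nonneg_left h1 hP0.le
      _ = X := hPX.symm
  have hlogn : Real.log n₀ ≤ Real.log X := Real.log_le_log hn0pos hn0X
  have hlogX : 1 ≤ Real.log X := by
    rw [Real.le_log_iff_exp_le hX0]
    linarith [Real.exp_one_lt_d9]
  have hsmall : X ^ (e / 4) * √(D * n₀ * (1 + Real.log n₀)) ≤ b * V / 2 := by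
    have h1 : D * n₀ * (1 + Real.log n₀) ≤ (4 * D / α) * (P * X ^ (e / 4)) := by
      have h2 : 1 + Real.log n₀ ≤ 2 * X ^ (e / 4) := by linarith
      calc D * n₀ * (1 + Real.log n₀) ≤ D * n₀ * (2 * X ^ (e / 4)) :=
            mul_le_mul_of_nonneg_left h2 (by positivity)
        _ ≤ D * (2 * (P / α)) * (2 * X ^ (e / 4)) := by gcongr
        _ = _ := by ring
    have h3 : √(D * n₀ * (1 + Real.log n₀)) ≤ √(4 * D / α) * X ^ ((1 - 2 * e) / 2 + e / 8) := by
      calc √(D * n₀ * (1 + Real.log n₀)) ≤ √((4 * D / α) * (P * X ^ (e / 4))) :=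
            Real.sqrt_le_sqrt h1
        _ = √(4 * D / α) * √(P * X ^ (e / 4)) := Real.sqrt_mul (by positivity) _
        _ = _ := by
            congr 1
            rw [hP, ← Real.rpow_add hX0, Real.sqrt_eq_rpow, ← Real.rpow_mul hX0.le]
            congr 1
            ring
    have h4 : X ^ (e / 4) * (√(4 * D / α) * X ^ ((1 - 2 * e) / 2 + e / 8)) * X ^ (e / 8) =
        √(4 * D / α) * X ^ ((1 - e) / 2) := by
      have : X ^ ((1 - e) / 2) = X ^ (e / 4) * X ^ ((1 - 2 * e) / 2 + e / 8) * X ^ (e / 8) := by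
        rw [← Real.rpow_add hX0, ← Real.rpow_add hX0]
        congr 1
        ring
      rw [this]; ring
    have h5 : 0 < X ^ (e / 8) := Real.rpow_pos_of_pos hX0 _
    have h6 : 0 < X ^ ((1 - e) / 2) := Real.rpow_pos_of_pos hX0 _
    have h7 : 200 * √(4 * D / α) ≤ c * X ^ (e / 8) := by
      rw [div_le_iff₀ hc] at f3
      linarith
    have h8 : X ^ (e / 4) * (√(4 * D / α) * X ^ ((1 - 2 * e) / 2 + e / 8)) ≤
        c * X ^ ((1 - e) / 2) / 200 := by
      have h9 : X ^ (e / 4) * (√(4 * D / α) * X ^ ((1 - 2 * e) / 2 + e / 8)) * X ^ (e / 8) ≤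
          (c * X ^ ((1 - e) / 2) / 200) * X ^ (e / 8) := by
        rw [h4]
        have := mul_le_mul_of_nonneg_right h7 h6.le
        linarith
      exact le_of_mul_le_mul_right h9 h5
    calc X ^ (e / 4) * √(D * n₀ * (1 + Real.log n₀))
        ≤ X ^ (e / 4) * (√(4 * D / α) * X ^ ((1 - 2 * e) / 2 + e / 8)) :=
          mul_le_mul_of_nonneg_left h3 (Real.rpow_nonneg hX0.le _)
      _ ≤ c * X ^ ((1 - e) / 2) / 200 := h8
      _ = c * (X ^ ((1 - e) / 2) / 100) / 2 := by ring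
      _ ≤ b * V / 2 := by
          have : c * (X ^ ((1 - e) / 2) / 100) ≤ b * V :=
            mul_le_mul hbc hV (by positivity) hb0
          linarith
  have hcount := count_low (u := fun n : ℕ => Pe (α * n) / √(α * n)) hn01 hn0T hw0 hw hg0 hg
    hD0.le hD hb0 hsum hsmall
  rw [← hVdef] at hcount
  set E : Finset ℕ := (Finset.Icc n₀ T).filter (fun n : ℕ => Pe (α * n) / √(α * n) ≤ -b) with hE
  -- the number of elements
  have hEcard : X ^ (1 - ε) ≤ E.card := by
    have h6 : 0 < X ^ ((1 - e) / 2) := Real.rpow_pos_of_pos hX0 _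
    have h7 : c * X ^ ((1 - e) / 2) / 200 ≤ b * V / 2 := by
      have : c * (X ^ ((1 - e) / 2) / 100) ≤ b * V := mul_le_mul hbc hV (by positivity) hb0
      linarith
    have h8 : (c * X ^ ((1 - e) / 2) / 200) ^ 2 * (P / α) ≤
        (X ^ (e / 4)) ^ 2 * D * (X / α) * E.card := by
      calc (c * X ^ ((1 - e) / 2) / 200) ^ 2 * (P / α) ≤ (b * V / 2) ^ 2 * n₀ := by
            apply mul_le_mul (pow_le_pow_left₀ (by positivity) h7 2) hn1 (by positivity) (by positivity)
        _ ≤ (X ^ (e / 4)) ^ 2 * D * T * E.card := hcount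
        _ ≤ _ := by
            have hG0 : 0 ≤ (X ^ (e / 4)) ^ 2 := sq_nonneg _
            exact mul_le_mul_of_nonneg_right (mul_le_mul_of_nonneg_left hT1
              (mul_nonneg hG0 hD0.le)) (Nat.cast_nonneg _)
    have h9 : (X ^ ((1 - e) / 2)) ^ 2 = X ^ (1 - e) := by
      rw [← Real.rpow_natCast, ← Real.rpow_mul hX0.le]
      congr 1
      push_cast
      ring
    have h10 : (X ^ (e / 4)) ^ 2 = X ^ (e / 2) := by
      rw [← Real.rpow_natCast, ← Real.rpow_mul hX0.le]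
      congr 1
      push_cast
      ring
    have h11 : X ^ (1 - e) * P = X ^ (e / 2) * X * (X ^ (e / 2) * X ^ (1 - 4 * e)) := by
      rw [hP]
      nth_rewrite 4 [← Real.rpow_one X]
      rw [← Real.rpow_add hX0, ← Real.rpow_add hX0, ← Real.rpow_add hX0, ← Real.rpow_add hX0]
      congr 1
      ring
    have h12 : (c * X ^ ((1 - e) / 2) / 200) ^ 2 * (P / α) =
        c ^ 2 / 40000 / α * (X ^ (e / 2) * X * (X ^ (e / 2) * X ^ (1 - 4 * e))) := by
      rw [← h11, ← h9]
      ring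
    rw [h12, h10] at h8
    have h13 : 0 < X ^ (e / 2) * X / α * D := by
      have : 0 < X ^ (e / 2) := Real.rpow_pos_of_pos hX0 _
      positivity
    have h14 : c ^ 2 / (40000 * D) * (X ^ (e / 2) * X ^ (1 - 4 * e)) ≤ E.card := by
      have h15 : (X ^ (e / 2) * X / α * D) * (c ^ 2 / (40000 * D) * (X ^ (e / 2) * X ^ (1 - 4 * e))) ≤
          (X ^ (e / 2) * X / α * D) * E.card := by
        generalize X ^ (e / 2) * X ^ (1 - 4 * e) = A at h8 ⊢
        generalize X ^ (e / 2) = U at h8 ⊢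
        have h20 : (U * X / α * D) * (c ^ 2 / (40000 * D) * A) = c ^ 2 / 40000 / α * (U * X * A) :=
          alg_id hα.ne' hD0.ne'
        rw [h20]
        refine h8.trans (le_of_eq ?_)
        ring
      exact le_of_mul_le_mul_left h15 h13
    have h16 : 1 ≤ c ^ 2 / (40000 * D) * X ^ (e / 2) := by
      rw [div_le_iff₀ (by positivity)] at f4
      rw [div_mul_eq_mul_div, le_div_iff₀ (by positivity)]
      linarith
    have h17 : X ^ (1 - ε) ≤ X ^ (1 - 4 * e) := Real.rpow_le_rpow_of_exponent_le hX1 (by linarith)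
    have h18 : 0 < X ^ (1 - 4 * e) := Real.rpow_pos_of_pos hX0 _
    calc X ^ (1 - ε) ≤ 1 * X ^ (1 - 4 * e) := by rw [one_mul]; exact h17
      _ ≤ (c ^ 2 / (40000 * D) * X ^ (e / 2)) * X ^ (1 - 4 * e) :=
          mul_le_mul_of_nonneg_right h16 h18.le
      _ = c ^ 2 / (40000 * D) * (X ^ (e / 2) * X ^ (1 - 4 * e)) := by ring
      _ ≤ _ := h14
  -- the members
  set Sset : Set ℕ := {n : ℕ | X ^ (1 - ε) ≤ α * n ∧ α * n ≤ X ∧
        Pe (α * n) ≤ -(c / 2 * √(α * n) * gn (α * n))} with hSset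
  have hsub : (E : Set ℕ) ⊆ Sset := by
    intro n hn
    rw [Finset.mem_coe, hE, Finset.mem_filter, Finset.mem_Icc] at hn
    obtain ⟨⟨g1, g2⟩, g3⟩ := hn
    have g1' : P / α ≤ n := hn1.trans (by exact_mod_cast g1)
    have g2' : (n : ℝ) ≤ X / α := by
      have : (n : ℝ) ≤ T := by exact_mod_cast g2
      exact this.trans hT1
    have g4 : P ≤ α * n := by
      rw [div_le_iff₀ hα] at g1'
      linarith
    have g5 : α * n ≤ X := by
      rw [le_div_iff₀ hα] at g2'
      linarith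
    have g6 : X ^ (1 - ε) ≤ P := Real.rpow_le_rpow_of_exponent_le hX1 (by linarith)
    have hR0 : 0 < α * n := by linarith
    have hsR : 0 < √(α * n) := Real.sqrt_pos.mpr hR0
    refine ⟨g6.trans g4, g5, ?_⟩
    rw [div_le_iff₀ hsR] at g3
    refine g3.trans ?_
    have g7 := hcomp X hXY (α * n) (hP3.trans g4) (by rw [Real.rpow_one]; exact g5)
    have g8 : c / 2 * √(α * n) * gn (α * n) ≤ b * √(α * n) := by
      rw [hb]
      have : c / 2 * √(α * n) * gn (α * n) ≤ c / 2 * √(α * n) * (2 * 1 * gn X) :=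
        mul_le_mul_of_nonneg_left g7 (by positivity)
      linarith
    linarith
  have hfin : Sset.Finite := by
    refine (Set.finite_Icc 0 ⌊X / α⌋₊).subset fun n hn => ?_
    refine ⟨Nat.zero_le _, Nat.le_floor ?_⟩
    rw [le_div_iff₀ hα]
    linarith [hn.2.1]
  have hcardle : E.card ≤ Sset.ncard := by
    rw [← Set.ncard_coe_finset]
    exact Set.ncard_le_ncard hsub hfin
  refine hEcard.trans ?_
  have : Nat.card {n : ℕ // X ^ (1 - ε) ≤ α * n ∧ α * n ≤ X ∧
        Pe (α * n) ≤ -(c / 2 * √(α * n) * gn (α * n))} = Sset.ncard := rfl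
  rw [this]
  exact_mod_cast hcardle

end

end Pool.Agent.Helper22.RZ
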